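import Pool.Agent.Y108.TK.Val

/-!
# Turk's head knots: the pairs adjacent to a bad pair
-/

set_option autoImplicit false

namespace Pool.Agent.Y108.TK

open Set Filter Topology MeasureTheory intervalIntegral
open scoped Real Interval
open Pool.Agent.Y472.K (Lc lf Ep ee S_JEN S_G1 S_G2 S_G5)
open Pool.Agent.Y813.TK (ps ps_cont ps_pos_arg ps_anti Lc_cont
  Lc_deriv Lc_one ee_cont ee_deriv ee_one der_pos der_neg ls_int g2)
open Pool.Agent.Y988.TK (Lc_sub Lc_half Lc_refl)

/-- a simple lower bound of `Lc` -/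
lemma Lc_low0 {x : ℝ} (h0 : 0 < x) (h1 : x ≤ 1 / 2) :
    x * (1 - Real.log (2 * π * x)) ≤ Lc x := by
  have hpi := Real.pi_pos
  have h2p : (2 * π : ℝ) ≠ 0 := by positivity
  have hi : IntervalIntegrable (fun t => Real.log (2 * π * t)) volume 0 x := by
    have := (intervalIntegral.intervalIntegrable_log' (a := 0) (b := 2 * π * x)).comp_mul_left
      (c := 2 * π)
    rwa [zero_div, mul_div_cancel_left₀ x h2p] at this
  have h2 : ∫ t in (0 : ℝ)..x, Real.log (2 * Real.sin (π * t)) ≤
      ∫ t in (0 : ℝ)..x, Real.log (2 * π * t) := by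
    apply intervalIntegral.integral_mono_on_of_le_Ioo h0.le (ls_int _ _) hi
    intro t ht
    have hs := sin_pos'' ht.1 (by linarith [ht.2])
    apply Real.log_le_log (by positivity)
    have := Real.sin_lt (show 0 < π * t by have := ht.1; positivity)
    linarith
  have h3 : ∫ t in (0 : ℝ)..x, Real.log (2 * π * t) = x * Real.log (2 * π * x) - x := by
    rw [intervalIntegral.integral_comp_mul_left (fun t => Real.log t) h2p, integral_log,
      mul_zero, zero_mul, smul_eq_mul]
    field_simp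
    ring
  unfold Pool.Agent.Y472.K.Lc
  linarith

lemma Lc_215 : 0.1569 ≤ Lc (2 / 15) := by
  have h := Lc_low0 (x := 2 / 15) (by norm_num) (by norm_num)
  have hpi := Real.pi_pos
  have h1 : Real.log (2 * π * (2 / 15)) ≤ -0.1768 := by
    rw [Real.log_le_iff_le_exp (by positivity)]
    have h2 : Real.exp (-0.1768) * Real.exp 0.1768 = 1 := by
      rw [← Real.exp_add]; norm_num
    have h3 := Real.exp_bound' (x := 0.1768) (n := 5) (by norm_num) (by norm_num) (by norm_num)
    norm_num [Finset.sum_range_succ, Nat.factorial] at h3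
    have h4 := Real.pi_lt_d4
    have h5 : 0 < Real.exp (-0.1768) := Real.exp_pos _
    norm_num at h2 h4 h5 ⊢
    nlinarith
  norm_num at h h1 ⊢
  linarith

lemma Lc_115 : 0.1246 ≤ Lc (1 / 15) := by
  have h := Lc_low0 (x := 1 / 15) (by norm_num) (by norm_num)
  have hpi := Real.pi_pos
  have h1 : Real.log (2 * π * (1 / 15)) ≤ -0.8692 := by
    rw [Real.log_le_iff_le_exp (by positivity)]
    have h2 : Real.exp (-0.8692) * Real.exp 0.8692 = 1 := by
      rw [← Real.exp_add]; norm_num
    have h3 := Real.exp_bound' (x := 0.8692) (n := 8) (by norm_num) (by norm_num) (by norm_num)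
    norm_num [Finset.sum_range_succ, Nat.factorial] at h3
    have h4 := Real.pi_lt_d4
    have h5 : 0 < Real.exp (-0.8692) := Real.exp_pos _
    norm_num at h2 h4 h5 ⊢
    nlinarith
  norm_num at h h1 ⊢
  linarith

/-! ### Values of the sine -/

lemma sin_215 : 0.406 < Real.sin (π * (2 / 15)) := by
  have h := Real.sin_gt_sub_cube (show 0 < π * (2 / 15) by positivity)
  have e3 := Real.pi_lt_d4
  have e4 := Real.pi_gt_d4
  have h5 : π * (2 / 15) < 0.4189 := by norm_num at e3 ⊢; linarith
  have h6 : 0.4188 < π * (2 / 15) := by norm_num at e4 ⊢; linarith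
  have h7 : (π * (2 / 15)) ^ 3 < 0.4189 ^ 3 := by gcongr
  norm_num at h5 h6 h7 h ⊢
  linarith

lemma sin_115 : 0.2078 < Real.sin (π * (1 / 15)) := by
  have h := Real.sin_gt_sub_cube (show 0 < π * (1 / 15) by positivity)
  have e3 := Real.pi_lt_d4
  have e4 := Real.pi_gt_d4
  have h5 : π * (1 / 15) < 0.20945 := by norm_num at e3 ⊢; linarith
  have h6 : 0.2094 < π * (1 / 15) := by norm_num at e4 ⊢; linarith
  have h7 : (π * (1 / 15)) ^ 3 < 0.20945 ^ 3 := by gcongr
  norm_num at h5 h6 h7 h ⊢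
  linarith

lemma sin_130 : 0.1045 < Real.sin (π * (1 / 30)) := by
  have h := Real.sin_gt_sub_cube (show 0 < π * (1 / 30) by positivity)
  have e3 := Real.pi_lt_d4
  have e4 := Real.pi_gt_d4
  have h5 : π * (1 / 30) < 0.1048 := by norm_num at e3 ⊢; linarith
  have h6 : 0.1047 < π * (1 / 30) := by norm_num at e4 ⊢; linarith
  have h7 : (π * (1 / 30)) ^ 3 < 0.1048 ^ 3 := by gcongr
  norm_num at h5 h6 h7 h ⊢
  linarith

/-! ### Values of `Hf` near `1 / 2` -/

lemma neg_log_le {u v κ : ℝ} (n : ℕ) (hv : 0 < v) (huv : v ≤ u) (hκ : 0 ≤ κ)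
    (h : 1 / v ≤ ∑ i ∈ Finset.range n, κ ^ i / (i.factorial : ℝ)) : -Real.log u ≤ κ := by
  have h1 := log_le' n (show 0 < 1 / v by positivity) hκ h
  rw [one_div, Real.log_inv] at h1
  have h2 := Real.log_le_log hv huv
  linarith

lemma Hf_1130 (hJ : S_JEN) : Hf (13 / 12) (11 / 30) ≤ 0.3475 := by
  have h := Hf_sym hJ Y1_pos (b := 2 / 15) (by norm_num) (by norm_num)
  rw [cosh1, sinh1] at h
  have h1 := neg_log_le (u := 2 * (5 / 12) * Real.sin (π * (2 / 15))) (v := 0.338) (κ := 1.085) 9
    (by norm_num) (by have := sin_215; norm_num at this ⊢; linarith) (by norm_num)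
    (by norm_num [Finset.sum_range_succ, Nat.factorial])
  have h2 := Y1_lt
  norm_num at h h1 h2 ⊢
  linarith

lemma Hf_1330 (hJ : S_JEN) : Hf (13 / 12) (13 / 30) ≤ 0.3198 := by
  have h := Hf_sym hJ Y1_pos (b := 1 / 15) (by norm_num) (by norm_num)
  rw [cosh1, sinh1] at h
  have h1 := neg_log_le (u := 2 * (5 / 12) * Real.sin (π * (1 / 15))) (v := 0.173) (κ := 1.7545) 12
    (by norm_num) (by have := sin_115; norm_num at this ⊢; linarith) (by norm_num)
    (by norm_num [Finset.sum_range_succ, Nat.factorial])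
  have h2 := Y1_lt
  norm_num at h h1 h2 ⊢
  linarith

lemma Hf_715 (hJ : S_JEN) : Hf (13 / 12) (7 / 15) ≤ 0.2842 := by
  have h := Hf_sym hJ Y1_pos (b := 1 / 30) (by norm_num) (by norm_num)
  rw [cosh1, sinh1] at h
  have h1 := neg_log_le (u := 2 * (5 / 12) * Real.sin (π * (1 / 30))) (v := 0.087) (κ := 2.442) 14
    (by norm_num) (by have := sin_130; norm_num at this ⊢; linarith) (by norm_num)
    (by norm_num [Finset.sum_range_succ, Nat.factorial])
  have h2 := Y1_lt
  norm_num at h h1 h2 ⊢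
  linarith

lemma Hf2_1330 (hJ : S_JEN) : Hf (5 / 4) (13 / 30) ≤ Y2 / 2 + 0.0779 := by
  have h := Hf_sym hJ Y2_pos (b := 1 / 15) (by norm_num) (by norm_num)
  rw [cosh2, sinh2] at h
  have h1 := neg_log_le (u := 2 * (3 / 4) * Real.sin (π * (1 / 15))) (v := 0.3117) (κ := 1.1658) 10
    (by norm_num) (by have := sin_115; norm_num at this ⊢; linarith) (by norm_num)
    (by norm_num [Finset.sum_range_succ, Nat.factorial])
  norm_num at h h1 ⊢
  linarith

/-! ### The bad pair -/

lemma ee1_bad0 (hJ : S_JEN) : ee (13 / 12) (13 / 15) ≤ 0.1630 := by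
  rw [ee_eq]
  have h := Lc_refl (2 / 15)
  have h1 := Lc_215
  have h2 := Hf_1330 hJ
  norm_num at h h1 h2 ⊢
  linarith

lemma ee1_bad1 (hJ : S_JEN) : ee (13 / 12) (14 / 15) ≤ 0.1630 := by
  rw [ee_eq]
  have h := Lc_refl (1 / 15)
  have h1 := Lc_115
  have h2 := Hf_715 hJ
  norm_num at h h1 h2 ⊢
  linarith

lemma ee1_bad (hJ : S_JEN) {δ : ℝ} (h0 : 13 / 15 ≤ δ) (h1 : δ ≤ 14 / 15) :
    ee (13 / 12) δ ≤ 0.1630 :=
  (ee_quasi (by norm_num) (by norm_num) (by norm_num) h0 h1 (by norm_num)).trans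
    (max_le (ee1_bad0 hJ) (ee1_bad1 hJ))

lemma ee1_badd (hJ : S_JEN) {δ : ℝ} (h0 : 13 / 15 ≤ δ) (h1 : δ ≤ 1) :
    ee (13 / 12) δ ≤ Y1 / 2 := by
  refine (ee_quasi (by norm_num) (by norm_num) (by norm_num) h0 h1 le_rfl).trans
    (max_le ((ee1_bad0 hJ).trans ?_) ?_)
  · have := Y1_gt
    norm_num at this ⊢
    linarith
  · have := ee_one hJ Y1_pos
    rw [cosh1] at this
    exact this.le

lemma ee2_badd (hJ : S_JEN) {δ : ℝ} (h0 : 13 / 15 ≤ δ) (h1 : δ ≤ 1) :
    ee (5 / 4) δ ≤ Y2 / 2 := by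
  refine (ee_quasi (by norm_num) (by norm_num) (by norm_num) h0 h1 le_rfl).trans
    (max_le ?_ ?_)
  · rw [ee_eq]
    have h := Lc_refl (2 / 15)
    have h1 := Lc_215
    have h2 := Hf2_1330 hJ
    norm_num at h h1 h2 ⊢
    linarith
  · have := ee_one hJ Y2_pos
    rw [cosh2] at this
    exact this.le

/-! ### The adjacent pairs on the first line -/

/-- the rate of the straddling edge at `x = 0` -/
noncomputable def e1 (w w' : ℝ) : ℝ := Lc (w + w') + 1 / 2 * (Hf (13 / 12) w + Hf (13 / 12) w')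

/-- comparison of the primitives -/
lemma comp_le {C a b c : ℝ} (hC : 1 < C) (hab : a ≤ b)
    (h : ∀ s ∈ Icc a b, 1 / 2 * ps C s ≤ Real.log (2 * Real.sin (π * (s + c)))) :
    Lc (b + c) + 1 / 2 * Hf C b ≤ Lc (a + c) + 1 / 2 * Hf C a := by
  have h1 := Lc_sub (a + c) (b + c)
  have h2 := Hf_sub hC a b
  have h3 : ∫ s in a..b, 1 / 2 * ps C s ≤ ∫ s in a..b, Real.log (2 * Real.sin (π * (s + c))) := by
    apply intervalIntegral.integral_mono_on hab
      (((ps_cont hC).const_mul (1 / 2)).intervalIntegrable _ _) ?_ h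
    have := (ls_int (a + c) (b + c)).comp_add_right c
    simpa using this
  rw [intervalIntegral.integral_const_mul,
    intervalIntegral.integral_comp_add_right (fun t => Real.log (2 * Real.sin (π * t)))] at h3
  linarith

lemma log_half {u s : ℝ} (hu : 0 < u) (_hs : 0 < s) (h : u ≤ 4 * s ^ 2) :
    1 / 2 * Real.log u ≤ Real.log (2 * s) := by
  have h1 : 2 * Real.log (2 * s) = Real.log ((2 * s) ^ 2) := by
    rw [Real.log_pow]; norm_num
  have h2 : Real.log u ≤ Real.log ((2 * s) ^ 2) := Real.log_le_log hu (by linarith)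
  linarith

lemma log256 : Real.log (2 * (13 / 12) + 2) ≤ 1.4272 := by
  have : Real.log (25 / 6) ≤ 1.4272 := log_le' 12 (by norm_num) (by norm_num)
    (by norm_num [Finset.sum_range_succ, Nat.factorial])
  rwa [show (2 : ℝ) * (13 / 12) + 2 = 25 / 6 by norm_num]

/-- the function of the outer end point -/
lemma outer_le {w w0 : ℝ} (hw : 11 / 30 ≤ w) (hw1 : w ≤ 13 / 30) (h0 : 0 ≤ w0)
    (h1 : w0 ≤ 1 / 2) :
    Lc (w + w0) + 1 / 2 * Hf (13 / 12) w0 ≤ 0.7136 * (1 / 2 - w) := by
  have hpi := Real.pi_pos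
  have hlog := log256
  have hlog2 := Real.log_two_lt_d9
  have hC : (1 : ℝ) < 13 / 12 := by norm_num
  -- the inner part
  have hin : ∀ v : ℝ, 0 ≤ v → v ≤ 1 / 2 - w →
      Lc (w + v) + 1 / 2 * Hf (13 / 12) v ≤ 0.7136 * (1 / 2 - w) := by
    intro v hv hv1
    have e1 := Lc_tan (δ := w + v) (by linarith) (by linarith)
    have e2 := Hf_le hC hv
    have e3 : v * Real.log (2 * (13 / 12) + 2) ≤ v * 1.4272 := mul_le_mul_of_nonneg_left hlog hv
    have e4 : (1 / 2 - (w + v)) * Real.log 2 ≤ (1 / 2 - (w + v)) * 0.7 :=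
      mul_le_mul_of_nonneg_left (by norm_num at hlog2 ⊢; linarith) (by linarith)
    norm_num at e3 e4 ⊢
    linarith
  rcases le_total w0 (1 / 2 - w) with h | h
  · exact hin w0 h0 h
  · have hcomp := comp_le (C := 13 / 12) (a := 1 / 2 - w) (b := w0) (c := w) hC h ?_
    · have := hin (1 / 2 - w) (by linarith) le_rfl
      rw [show w + (1 / 2 - w) = 1 / 2 - w + w by ring] at this
      rw [show w + w0 = w0 + w by ring]
      exact hcomp.trans this
    · intro s hs
      have hb : 1 / 15 ≤ 1 / 2 - w := by linarith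
      have hsp := sin_pos'' (t := s + w) (by linarith [hs.1]) (by linarith [hs.2])
      unfold ps
      apply log_half (ps_pos_arg hC s) hsp
      -- `1 / 24 ≤ sin (π (2 s - b)) sin (π b)`
      have hs15 := sin_115
      have k1 : Real.sin (π * (1 / 15)) ≤ Real.sin (π * (1 / 2 - w)) := by
        apply Real.sin_le_sin_of_le_of_le_pi_div_two
        · linarith
        · have := mul_le_mul_of_nonneg_left (show 1 / 2 - w ≤ 1 / 2 by linarith) hpi.le
          linarith
        · exact mul_le_mul_of_nonneg_left hb hpi.le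
      have k2 : Real.sin (π * (1 / 2 - w)) ≤ Real.sin (π * (2 * s - (1 / 2 - w))) := by
        rcases le_total (2 * s - (1 / 2 - w)) (1 / 2) with h5 | h5
        · apply Real.sin_le_sin_of_le_of_le_pi_div_two
          · have : 0 ≤ π * (1 / 2 - w) := mul_nonneg hpi.le (by linarith)
            linarith
          · have := mul_le_mul_of_nonneg_left h5 hpi.le
            linarith
          · exact mul_le_mul_of_nonneg_left (by linarith [hs.1]) hpi.le
        · rw [← Real.sin_pi_sub (π * (2 * s - (1 / 2 - w)))]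
          apply Real.sin_le_sin_of_le_of_le_pi_div_two
          · have : 0 ≤ π * (1 / 2 - w) := mul_nonneg hpi.le (by linarith)
            linarith
          · have := mul_le_mul_of_nonneg_left h5 hpi.le
            linarith
          · have : π * (2 * s - (1 / 2 - w) + (1 / 2 - w)) ≤ π * 1 :=
              mul_le_mul_of_nonneg_left (by linarith [hs.2, hs.1]) hpi.le
            linarith
      have k3 : 1 / 24 ≤ Real.sin (π * (2 * s - (1 / 2 - w))) * Real.sin (π * (1 / 2 - w)) := by
        norm_num at hs15 k1 k2 ⊢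
        nlinarith
      have k4 := Real.two_mul_sin_mul_sin (π * (2 * s - (1 / 2 - w))) (π * (1 / 2 - w))
      have k5 : Real.cos (π * (2 * s - (1 / 2 - w)) - π * (1 / 2 - w)) =
          2 * Real.sin (π * (s + w)) ^ 2 - 1 := by
        have : π * (2 * s - (1 / 2 - w)) - π * (1 / 2 - w) = 2 * (π * (s + w)) - π := by ring
        rw [this, Real.cos_sub_pi, Real.cos_two_mul, Real.cos_sq']
        ring
      have k6 : Real.cos (π * (2 * s - (1 / 2 - w)) + π * (1 / 2 - w)) =
          Real.cos (2 * π * s) := by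
        congr 1; ring
      rw [k5, k6] at k4
      linarith

lemma Hf_anti {a b : ℝ} (h0 : 11 / 30 ≤ a) (h1 : a ≤ b) (h2 : b ≤ 1 / 2) :
    Hf (13 / 12) b ≤ Hf (13 / 12) a := by
  have hpi := Real.pi_pos
  have hC : (1 : ℝ) < 13 / 12 := by norm_num
  have h := Hf_le_of (M := 0) hC h1 ?_
  · linarith
  · intro t ht
    unfold ps
    apply Real.log_nonpos (ps_pos_arg hC t).le
    have k1 : Real.cos (2 * π * t) ≤ Real.cos (2 * π * (11 / 30)) :=
      Real.cos_le_cos_of_nonneg_of_le_pi (by positivity) (by nlinarith [ht.2])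
        (by nlinarith [ht.1])
    have k2 : Real.cos (2 * π * (11 / 30)) ≤ -(5 / 8) := by
      have e1 : 2 * π * (11 / 30) = π * (7 / 30) + π / 2 := by ring
      rw [e1, Real.cos_add_pi_div_two]
      have h := Real.sin_gt_sub_cube (show 0 < π * (7 / 30) by positivity)
      have e3 := Real.pi_lt_d4
      have e4 := Real.pi_gt_d4
      have h5 : π * (7 / 30) < 0.7331 := by norm_num at e3 ⊢; linarith
      have h6 : 0.733 < π * (7 / 30) := by norm_num at e4 ⊢; linarith
      have h7 : (π * (7 / 30)) ^ 3 < 0.7331 ^ 3 := by gcongr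
      norm_num at h5 h6 h7 h ⊢
      linarith
    linarith

/-- adjacent pairs, the end point away from `1 / 2` -/
lemma adj_a (hJ : S_JEN) {w w0 : ℝ} (hw : 11 / 30 ≤ w) (hw1 : w ≤ 13 / 30) (h0 : 0 ≤ w0)
    (h1 : w0 ≤ 1 / 2) : e1 w w0 ≤ 0.2689 := by
  have h2 := outer_le hw hw1 h0 h1
  have h3 := Hf_anti le_rfl hw (by linarith)
  have h4 := Hf_1130 hJ
  unfold e1
  norm_num at h2 h3 h4 ⊢
  linarith

/-- adjacent pairs, the end point near `1 / 2` -/
lemma adj_b (hJ : S_JEN) {w w0 : ℝ} (hw : 13 / 30 ≤ w) (hw1 : w ≤ 1 / 2) (h0 : 0 ≤ w0)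
    (h1 : w0 ≤ 1 / 2) : e1 w w0 ≤ 0.2075 := by
  have hpi := Real.pi_pos
  have hC : (1 : ℝ) < 13 / 12 := by norm_num
  rcases le_total w0 (13 / 30) with h | h
  · have hcomp := comp_le (C := 13 / 12) (a := 13 / 30) (b := w) (c := w0) hC hw ?_
    · have h2 := outer_le (w := 13 / 30) (w0 := w0) (by norm_num) le_rfl h0 h1
      have h3 := Hf_1330 hJ
      unfold e1
      norm_num at hcomp h2 h3 ⊢
      linarith
    · intro s hs
      have hsp := sin_pos'' (t := s + w0) (by linarith [hs.1]) (by linarith [hs.2])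
      unfold ps
      apply log_half (ps_pos_arg hC s) hsp
      have hs15 := sin_115
      have e0 : Real.sin (π * (1 / 15)) = Real.cos (π * (13 / 30)) := by
        rw [← Real.cos_pi_div_two_sub]; congr 1; ring
      have k1 : Real.cos (π * (13 / 30)) ≤ Real.cos (π * w0) :=
        Real.cos_le_cos_of_nonneg_of_le_pi (by positivity) (by nlinarith) (by nlinarith)
      have k2 : Real.cos (π * (13 / 30)) ≤ -Real.cos (π * (2 * s + w0)) := by
        have e1 : -Real.cos (π * (2 * s + w0)) = Real.cos (π * |2 * s + w0 - 1|) := by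
          have : π * |2 * s + w0 - 1| = |π * (2 * s + w0 - 1)| := by
            rw [abs_mul, abs_of_pos hpi]
          rw [this, Real.cos_abs, show π * (2 * s + w0 - 1) = π * (2 * s + w0) - π by ring,
            Real.cos_sub_pi]
        rw [e1]
        have habs : |2 * s + w0 - 1| ≤ 13 / 30 := by
          rw [abs_le]
          constructor
          · linarith [hs.1]
          · linarith [hs.2]
        apply Real.cos_le_cos_of_nonneg_of_le_pi (by positivity) (by nlinarith)
        exact mul_le_mul_of_nonneg_left habs hpi.le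
      have k3 : 1 / 24 ≤ Real.cos (π * w0) * (-Real.cos (π * (2 * s + w0))) := by
        rw [e0] at hs15
        norm_num at hs15 k1 k2 ⊢
        nlinarith
      have k4 := Real.two_mul_cos_mul_cos (π * (2 * s + w0)) (π * w0)
      have k5 : Real.cos (π * (2 * s + w0) + π * w0) = 1 - 2 * Real.sin (π * (s + w0)) ^ 2 := by
        have : π * (2 * s + w0) + π * w0 = 2 * (π * (s + w0)) := by ring
        rw [this, Real.cos_two_mul, Real.cos_sq']
        ring
      have k6 : Real.cos (π * (2 * s + w0) - π * w0) = Real.cos (2 * π * s) := by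
        congr 1; ring
      rw [k5, k6] at k4
      linarith
  · have h2 := ed_zero (w := w) (w' := w0) Y1_pos
    rw [cosh1] at h2
    have h3 := (g2 Y1 (1 / 2 + w) (1 / 2 - w0) Y1_pos (by linarith) (by linarith) (by linarith)
      (by linarith)).1
    rw [cosh1, show (1 : ℝ) / 2 + w - (1 / 2 - w0) = w + w0 by ring] at h3
    have h4 := ee1_badd hJ (δ := w + w0) (by linarith) (by linarith)
    have h5 := Y1_lt
    unfold ed at h2
    unfold e1
    rw [← h2]
    norm_num at h5 ⊢
    linarith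

end Pool.Agent.Y108.TK
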