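import Pool.Agent.Y108.TK.Adj

/-!
# Turk's head knots: lower bound of the growth rate for `n = 4`
-/

set_option autoImplicit false

namespace Pool.Agent.Y108.TK

open Set Filter Topology MeasureTheory intervalIntegral
open scoped Real Interval
open Pool.Agent.Y472.K (Lc lf Ep ee ga Ch yn bs Es Dn S_PAR S_JEN S_G1 S_G2 S_G5)
open Pool.Agent.Y813.TK (ps ps_cont ps_pos_arg ps_anti Lc_cont
  Lc_deriv Lc_one ee_cont ee_deriv ee_one der_pos der_neg ls_int g2)
open Pool.Agent.Y988.TK (Lc_sub Lc_half Lc_refl lob vol)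

/-- the trapezoidal rule -/
lemma Lc_trap {p q : ℝ} (h0 : 0 < p) (hpq : p ≤ q) (h1 : q < 1) :
    (q - p) * Real.log (4 * Real.sin (π * p) * Real.sin (π * q)) / 2 ≤ Lc p - Lc q := by
  have hpi := Real.pi_pos
  rw [← Lc_sub]
  have sp := sin_pos'' h0 (by linarith)
  have sq := sin_pos'' (t := q) (by linarith) h1
  apply Pool.Agent.Y51.TK.sym_low hpq (ls_int _ _)
  intro t ht
  have s1 := sin_pos'' (t := t) (by linarith [ht.1]) (by linarith [ht.2])
  have s2 := sin_pos'' (t := p + q - t) (by linarith [ht.2]) (by linarith [ht.1])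
  rw [← Real.log_mul (by positivity) (by positivity)]
  apply Real.log_le_log (by positivity)
  have e1 := Real.two_mul_sin_mul_sin (π * t) (π * (p + q - t))
  have e2 := Real.two_mul_sin_mul_sin (π * p) (π * q)
  have e3 : π * t + π * (p + q - t) = π * p + π * q := by ring
  have e4 : Real.cos (π * p - π * q) ≤ Real.cos (π * t - π * (p + q - t)) := by
    rw [← Real.cos_abs (π * p - π * q), ← Real.cos_abs (π * t - π * (p + q - t))]
    have a1 : |π * p - π * q| = π * (q - p) := by
      rw [show π * p - π * q = -(π * (q - p)) by ring, abs_neg,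
        abs_of_nonneg (mul_nonneg hpi.le (by linarith))]
    have a2 : |π * t - π * (p + q - t)| = π * |2 * t - p - q| := by
      rw [show π * t - π * (p + q - t) = π * (2 * t - p - q) by ring, abs_mul, abs_of_pos hpi]
    rw [a1, a2]
    apply Real.cos_le_cos_of_nonneg_of_le_pi (by positivity) (by nlinarith)
    apply mul_le_mul_of_nonneg_left _ hpi.le
    rw [abs_le]
    constructor <;> linarith [ht.1, ht.2]
  rw [e3] at e1
  nlinarith

lemma sin_shift {x : ℝ} : Real.sin (π * (1 / 2 - x)) = Real.cos (π * x) := by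
  rw [← Real.sin_pi_div_two_sub]; congr 1; ring

lemma c12 : 0.9659 < Real.cos (π * (1 / 12)) ∧ Real.cos (π * (1 / 12)) ^ 2 = (1 + √3 / 2) / 2 := by
  have h1 : Real.cos (2 * (π * (1 / 12))) = 2 * Real.cos (π * (1 / 12)) ^ 2 - 1 :=
    Real.cos_two_mul _
  have h2 : Real.cos (2 * (π * (1 / 12))) = √3 / 2 := by
    rw [show 2 * (π * (1 / 12)) = π / 6 by ring, Real.cos_pi_div_six]
  have h3 := s3a
  have h4 := cos_p (t := 1 / 12) (by norm_num) (by norm_num)
  refine ⟨?_, by linarith⟩
  by_contra hcon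
  push Not at hcon
  norm_num at hcon h3
  nlinarith

lemma c24 : 0.9829 < Real.cos (π * (1 / 24)) ^ 2 := by
  have h1 : Real.cos (2 * (π * (1 / 24))) = 2 * Real.cos (π * (1 / 24)) ^ 2 - 1 :=
    Real.cos_two_mul _
  rw [show 2 * (π * (1 / 24)) = π * (1 / 12) by ring] at h1
  have h2 := c12.1
  norm_num at h2 ⊢
  linarith

lemma Lc_third_low : 0.10738 ≤ Lc (1 / 3) := by
  have t1 := Lc_trap (p := 1 / 3) (q := 3 / 8) (by norm_num) (by norm_num) (by norm_num)
  have t2 := Lc_trap (p := 3 / 8) (q := 5 / 12) (by norm_num) (by norm_num) (by norm_num)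
  have t3 := Lc_trap (p := 5 / 12) (q := 11 / 24) (by norm_num) (by norm_num) (by norm_num)
  have t4 := Lc_trap (p := 11 / 24) (q := 1 / 2) (by norm_num) (by norm_num) (by norm_num)
  have e0 : Real.sin (π * (1 / 3)) = √3 / 2 := by
    rw [show π * (1 / 3) = π / 3 by ring, Real.sin_pi_div_three]
  have e1 : Real.sin (π * (3 / 8)) = Real.cos (π * (1 / 8)) := by
    rw [← sin_shift]; congr 1; ring
  have e2 : Real.sin (π * (5 / 12)) = Real.cos (π * (1 / 12)) := by
    rw [← sin_shift]; congr 1; ring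
  have e3 : Real.sin (π * (11 / 24)) = Real.cos (π * (1 / 24)) := by
    rw [← sin_shift]; congr 1; ring
  have e4 : Real.sin (π * (1 / 2)) = 1 := by
    rw [show π * (1 / 2) = π / 2 by ring, Real.sin_pi_div_two]
  rw [e0, e1] at t1
  rw [e1, e2] at t2
  rw [e2, e3] at t3
  rw [e3, e4] at t4
  have p0 := s3a
  have p1 : 0.92387 < Real.cos (π * (1 / 8)) := by
    have := c8.1
    rwa [show π / 8 = π * (1 / 8) by ring] at this
  have p2 := c12.1
  have p2' := c12.2
  have p3' := c24
  have p3 : 0 < Real.cos (π * (1 / 24)) := by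
    apply Real.cos_pos_of_mem_Ioo
    constructor <;> linarith [Real.pi_pos]
  set A := Real.cos (π * (1 / 8))
  set B := Real.cos (π * (1 / 12))
  set D := Real.cos (π * (1 / 24))
  have q1 : 0 < A := by norm_num at p1; linarith
  have q2 : 0 < B := by norm_num at p2; linarith
  have q0 : 0 < √3 := by positivity
  have hlog : Real.log (4 * (√3 / 2) * A) + Real.log (4 * A * B) + Real.log (4 * B * D) +
      Real.log (4 * D * 1) = Real.log (128 * √3 * A ^ 2 * B ^ 2 * D ^ 2) := by
    rw [← Real.log_mul (by positivity) (by positivity), ← Real.log_mul (by positivity)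
      (by positivity), ← Real.log_mul (by positivity) (by positivity)]
    congr 1
    ring
  have hbig : 128 * 1.355 ≤ 128 * √3 * A ^ 2 * B ^ 2 * D ^ 2 := by
    have r1 : 0.85353 ≤ A ^ 2 := by norm_num at p1 ⊢; nlinarith
    have r2 : 0.93301 ≤ B ^ 2 := by rw [p2']; norm_num at p0 ⊢; linarith
    have r3 : 0.9829 ≤ D ^ 2 := p3'.le
    have r0 : 1.73205 ≤ √3 := p0.le
    calc (128 * 1.355 : ℝ) ≤ 128 * 1.73205 * 0.85353 * 0.93301 * 0.9829 := by norm_num
      _ ≤ 128 * √3 * A ^ 2 * B ^ 2 * D ^ 2 := by gcongr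
  have hl := Real.log_le_log (by norm_num) hbig
  rw [Real.log_mul (by norm_num) (by norm_num), show (128 : ℝ) = 2 ^ 7 by norm_num,
    Real.log_pow] at hl
  have hl2 : 0.3037 ≤ Real.log 1.355 := le_log' 6 (by norm_num) (by norm_num) (by norm_num)
    (by norm_num) (by norm_num [Finset.sum_range_succ, Nat.factorial])
  have hl3 := Real.log_two_gt_d9
  rw [Lc_half] at t4
  rw [show (2 : ℝ) ^ 7 = 128 by norm_num] at hl
  norm_num at t1 t2 t3 t4 hlog hl hl2 hl3 ⊢
  linarith

lemma Lc_112 : 0.13724 ≤ Lc (1 / 12) := by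
  have h := Lc_low0 (x := 1 / 12) (by norm_num) (by norm_num)
  have hpi := Real.pi_pos
  have h1 : Real.log (2 * π * (1 / 12)) ≤ -0.647 := by
    rw [Real.log_le_iff_le_exp (by positivity)]
    have h2 : Real.exp (-0.647) * Real.exp 0.647 = 1 := by
      rw [← Real.exp_add]; norm_num
    have h3 := Real.exp_bound' (x := 0.647) (n := 8) (by norm_num) (by norm_num) (by norm_num)
    norm_num [Finset.sum_range_succ, Nat.factorial] at h3
    have h4 := Real.pi_lt_d6
    have h5 : 0 < Real.exp (-0.647) := Real.exp_pos _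
    norm_num at h2 h4 h5 ⊢
    nlinarith
  norm_num at h h1 ⊢
  linarith

/-- the lower bound of the growth rate -/
lemma D4_low (hPAR : S_PAR) : 1.9569 ≤ Dn 4 := by
  have hpi := Real.pi_pos
  have hv := vol hPAR 4 le_rfl
  rw [lob, lob] at hv
  push_cast at hv
  set θ := Real.arccos (Real.cos (π / 4) - 1 / 2) with hθ
  have hc : Real.cos θ = √2 / 2 - 1 / 2 := by
    rw [hθ, Real.cos_pi_div_four, Real.cos_arccos]
    · have := s2a; norm_num at this ⊢; linarith
    · have := s2b; norm_num at this ⊢; linarith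
  have hθ0 : 0 ≤ θ := Real.arccos_nonneg _
  have hθ1 : θ ≤ π := Real.arccos_le_pi _
  -- position of the maximum
  have hθ2 : 5 * π / 12 ≤ θ := by
    by_contra hcon
    push Not at hcon
    have h1 := Real.cos_lt_cos_of_nonneg_of_le_pi hθ0 (by linarith) hcon
    rw [hc] at h1
    have h2 : Real.cos (5 * π / 12) = Real.cos (π / 4) * Real.cos (π / 6) -
        Real.sin (π / 4) * Real.sin (π / 6) := by
      rw [← Real.cos_add]; congr 1; ring
    rw [h2, Real.cos_pi_div_four, Real.cos_pi_div_six, Real.sin_pi_div_four,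
      Real.sin_pi_div_six] at h1
    have := s2a; have := s2b; have := s3a; have := s3b
    norm_num at *
    nlinarith
  have hθ3 : θ ≤ π / 2 := by
    by_contra hcon
    push Not at hcon
    have h1 := Real.cos_lt_cos_of_nonneg_of_le_pi (by positivity) hθ1 hcon
    rw [hc, Real.cos_pi_div_two] at h1
    have := s2a
    norm_num at this
    linarith
  set u := θ / (2 * π) with hu
  have hu1 : (θ / 2 + π / (2 * 4)) / π = u + 1 / 8 := by rw [hu]; field_simp; ring
  have hu2 : (θ / 2 - π / (2 * 4)) / π = u - 1 / 8 := by rw [hu]; field_simp; ring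
  rw [hu1, hu2] at hv
  have hD : Dn 4 = 8 * (Lc (u + 1 / 8) + Lc (u - 1 / 8)) := by
    have : 2 * π * Dn 4 = 2 * π * (8 * (Lc (u + 1 / 8) + Lc (u - 1 / 8))) := by
      rw [hv]; ring
    exact mul_left_cancel₀ (by positivity) this
  have hu3 : 5 / 24 ≤ u := by
    rw [hu, le_div_iff₀ (by positivity)]
    linarith
  have hu4 : u ≤ 1 / 4 := by
    rw [hu, div_le_iff₀ (by positivity)]
    linarith
  have hθu : θ = 2 * (π * u) := by rw [hu]; field_simp
  -- monotonicity
  have i1 := Lc_sub (5 / 24 + 1 / 8) (u + 1 / 8)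
  have i2 := Lc_sub (5 / 24 - 1 / 8) (u - 1 / 8)
  rw [← intervalIntegral.integral_comp_add_right (fun t => Real.log (2 * Real.sin (π * t)))] at i1
  rw [← intervalIntegral.integral_comp_sub_right (fun t => Real.log (2 * Real.sin (π * t)))] at i2
  have j1 : IntervalIntegrable (fun t => Real.log (2 * Real.sin (π * (t + 1 / 8)))) volume
      (5 / 24) u := by
    have := (ls_int (5 / 24 + 1 / 8) (u + 1 / 8)).comp_add_right (1 / 8)
    simpa using this
  have j2 : IntervalIntegrable (fun t => Real.log (2 * Real.sin (π * (t - 1 / 8)))) volume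
      (5 / 24) u := by
    have := (ls_int (5 / 24 - 1 / 8) (u - 1 / 8)).comp_sub_right (1 / 8)
    simpa using this
  have i3 : ∫ t in (5 / 24 : ℝ)..u, (Real.log (2 * Real.sin (π * (t + 1 / 8))) +
      Real.log (2 * Real.sin (π * (t - 1 / 8)))) ≤ ∫ _t in (5 / 24 : ℝ)..u, (0 : ℝ) := by
    apply intervalIntegral.integral_mono_on hu3 (j1.add j2) (by simp)
    intro t ht
    have s1 := sin_pos'' (t := t + 1 / 8) (by linarith [ht.1]) (by linarith [ht.2])
    have s2 := sin_pos'' (t := t - 1 / 8) (by linarith [ht.1]) (by linarith [ht.2])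
    rw [← Real.log_mul (by positivity) (by positivity)]
    apply Real.log_nonpos (by positivity)
    have e1 := Real.two_mul_sin_mul_sin (π * (t + 1 / 8)) (π * (t - 1 / 8))
    have e2 : Real.cos (π * (t + 1 / 8) - π * (t - 1 / 8)) = √2 / 2 := by
      rw [← Real.cos_pi_div_four]; congr 1; ring
    have e3 : π * (t + 1 / 8) + π * (t - 1 / 8) = 2 * (π * t) := by ring
    have e4 : Real.cos θ ≤ Real.cos (2 * (π * t)) := by
      apply Real.cos_le_cos_of_nonneg_of_le_pi
      · have : 0 ≤ π * t := mul_nonneg hpi.le (by linarith [ht.1])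
        linarith
      · exact hθ1
      · rw [hθu]
        have := mul_le_mul_of_nonneg_left ht.2 hpi.le
        linarith
    rw [hc] at e4
    rw [e2, e3] at e1
    linarith
  rw [intervalIntegral.integral_add j1 j2, i1, i2] at i3
  simp only [intervalIntegral.integral_zero] at i3
  have k1 := Lc_third_low
  have k2 := Lc_112
  rw [show (5 : ℝ) / 24 + 1 / 8 = 1 / 3 by norm_num,
    show (5 : ℝ) / 24 - 1 / 8 = 1 / 12 by norm_num] at i3
  rw [hD]
  norm_num at k1 k2 ⊢
  linarith

lemma ga4 : ga 4 = √2 / 2 := by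
  unfold Pool.Agent.Y472.K.ga
  push_cast
  rw [Real.cos_pi_div_four]

lemma Ch4 : Ch 4 = 1 + √2 / 2 := by
  unfold Pool.Agent.Y472.K.Ch
  rw [ga4]
  have : √2 * √2 = 2 := Real.mul_self_sqrt (by norm_num)
  linear_combination -(1 / 2 : ℝ) * this

lemma yn4_le (hPAR : S_PAR) : yn 4 ≤ 1.13 := by
  obtain ⟨-, -, -, -, p5, p6, -⟩ := hPAR 4 le_rfl
  by_contra hcon
  push Not at hcon
  have h4 : Real.cosh 1.13 ≤ Real.cosh (yn 4) := by
    rw [Real.cosh_le_cosh, abs_of_nonneg (by norm_num), abs_of_nonneg p5.le]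
    exact hcon.le
  rw [p6, Ch4] at h4
  have c1 := Pool.Agent.Y51.TK.cosh_low 0.14125 (by norm_num)
  have c2 := Real.cosh_two_mul 0.14125
  have c2' := Real.cosh_sq 0.14125
  have c3 := Real.cosh_two_mul 0.2825
  have c3' := Real.cosh_sq 0.2825
  have c4 := Real.cosh_two_mul 0.565
  have c4' := Real.cosh_sq 0.565
  have c5 := s2b
  norm_num at c1 c2 c2' c3 c3' c4 c4' h4 c5
  have d2 : (104009 / 100000 : ℝ) ≤ Real.cosh (113 / 400) := by
    rw [c2]; nlinarith
  have d3 : (11635 / 10000 : ℝ) ≤ Real.cosh (113 / 200) := by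
    rw [c3]; nlinarith
  have d4 : (17074 / 10000 : ℝ) ≤ Real.cosh (113 / 100) := by
    rw [c4]; nlinarith
  linarith

end Pool.Agent.Y108.TK
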