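import Pool.Agent.Y108.TK.Sup

/-!
# Turk's head knots: numerical bounds for the lines `y = log (3 / 2)` and `y = log 2`
-/

set_option autoImplicit false

namespace Pool.Agent.Y108.TK

open Set Filter Topology MeasureTheory intervalIntegral
open scoped Real Interval
open Pool.Agent.Y472.K (Lc lf Ep ee S_JEN S_G1 S_G2 S_G5)
open Pool.Agent.Y813.TK (ps ps_cont ps_pos_arg ps_anti Lc_cont
  Lc_deriv Lc_one ee_cont ee_deriv ee_one der_pos der_neg ls_int)
open Pool.Agent.Y988.TK (Lc_sub Lc_half Lc_refl)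

lemma log_le' {a b : ℝ} (n : ℕ) (ha : 0 < a) (hb : 0 ≤ b)
    (h : a ≤ ∑ i ∈ Finset.range n, b ^ i / (i.factorial : ℝ)) : Real.log a ≤ b :=
  (Real.log_le_iff_le_exp ha).2 (h.trans (Real.sum_le_exp_of_nonneg hb n))

lemma le_log' {a b : ℝ} (n : ℕ) (hn : 0 < n) (ha : 0 < a) (hb : 0 ≤ b) (hb1 : b ≤ 1)
    (h : ∑ m ∈ Finset.range n, b ^ m / (m.factorial : ℝ) +
      b ^ n * (n + 1) / (n.factorial * n) ≤ a) : b ≤ Real.log a :=
  (Real.le_log_iff_exp_le ha).2 ((Real.exp_bound' hb hb1 hn).trans h)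

lemma Hf_jen {C p q A : ℝ} (hC : 1 < C) (hpq : p ≤ q) (hA : 0 < A) :
    Hf C q - Hf C p ≤ (q - p) * (Real.log A - 1) +
      (2 * C * (q - p) + (Real.sin (2 * π * q) - Real.sin (2 * π * p)) / π) / A := by
  rw [Hf_sub hC]
  have hpi := Real.pi_pos
  have h1 : ∫ s in p..q, ps C s ≤
      ∫ s in p..q, (Real.log A - 1 + (2 * C + 2 * Real.cos (2 * π * s)) / A) := by
    apply intervalIntegral.integral_mono_on hpq ((ps_cont hC).intervalIntegrable _ _)
      (Continuous.intervalIntegrable (by fun_prop) _ _)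
    intro s _
    have hu := ps_pos_arg hC s
    have h2 := Real.log_le_sub_one_of_pos (show 0 < (2 * C + 2 * Real.cos (2 * π * s)) / A by
      positivity)
    rw [Real.log_div hu.ne' hA.ne'] at h2
    unfold ps
    linarith
  refine h1.trans (le_of_eq ?_)
  have h3 : ∀ s ∈ uIcc p q, HasDerivAt
      (fun s => (Real.log A - 1) * s + (2 * C * s + Real.sin (2 * π * s) / π) / A)
      (Real.log A - 1 + (2 * C + 2 * Real.cos (2 * π * s)) / A) s := by
    intro s _
    have e1 : HasDerivAt (fun s : ℝ => 2 * π * s) (2 * π) s := by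
      simpa using (hasDerivAt_id s).const_mul (2 * π)
    have e2 := (e1.sin).div_const π
    have e3 : HasDerivAt (fun s : ℝ => 2 * C * s) (2 * C) s := by
      simpa using (hasDerivAt_id s).const_mul (2 * C)
    have e4 : HasDerivAt (fun s : ℝ => (Real.log A - 1) * s) (Real.log A - 1) s := by
      simpa using (hasDerivAt_id s).const_mul (Real.log A - 1)
    refine (e4.add ((e3.add e2).div_const A)).congr_deriv ?_
    have : Real.cos (2 * π * s) * (2 * π) / π = 2 * Real.cos (2 * π * s) := by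
      field_simp
    rw [this]
  rw [intervalIntegral.integral_eq_sub_of_hasDerivAt h3
    (Continuous.intervalIntegrable (by fun_prop) _ _)]
  ring

lemma Lc_jen {p q A : ℝ} (h0 : 0 < p) (hpq : p ≤ q) (hq : q < 1) (hA : 0 < A) :
    Lc p - Lc q ≤ (q - p) * (Real.log A - 1) +
      2 * ((Real.cos (π * p) - Real.cos (π * q)) / π) / A := by
  rw [← Lc_sub]
  have hpi := Real.pi_pos
  have h1 : ∫ s in p..q, Real.log (2 * Real.sin (π * s)) ≤
      ∫ s in p..q, (Real.log A - 1 + (2 * Real.sin (π * s)) / A) := by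
    apply intervalIntegral.integral_mono_on hpq (ls_int _ _)
      (Continuous.intervalIntegrable (by fun_prop) _ _)
    intro s hs
    have hu : 0 < Real.sin (π * s) := by
      apply Real.sin_pos_of_pos_of_lt_pi
      · exact mul_pos hpi (by linarith [hs.1])
      · have := mul_lt_mul_of_pos_left (show s < 1 by linarith [hs.2]) hpi
        linarith
    have h2 := Real.log_le_sub_one_of_pos (show 0 < (2 * Real.sin (π * s)) / A by positivity)
    rw [Real.log_div (by positivity) hA.ne'] at h2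
    linarith
  refine h1.trans (le_of_eq ?_)
  have h3 : ∀ s ∈ uIcc p q, HasDerivAt
      (fun s => (Real.log A - 1) * s - 2 * (Real.cos (π * s) / π) / A)
      (Real.log A - 1 + (2 * Real.sin (π * s)) / A) s := by
    intro s _
    have e1 : HasDerivAt (fun s : ℝ => π * s) π s := by
      simpa using (hasDerivAt_id s).const_mul π
    have e2 := (((e1.cos).div_const π).const_mul 2).div_const A
    have e4 : HasDerivAt (fun s : ℝ => (Real.log A - 1) * s) (Real.log A - 1) s := by
      simpa using (hasDerivAt_id s).const_mul (Real.log A - 1)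
    refine (e4.sub e2).congr_deriv ?_
    have : -Real.sin (π * s) * π / π = -Real.sin (π * s) := by
      field_simp
    rw [this]
    ring
  rw [intervalIntegral.integral_eq_sub_of_hasDerivAt h3
    (Continuous.intervalIntegrable (by fun_prop) _ _)]
  ring

/-! ### Constants -/

lemma ip1 : 0.318309 < 1 / π := by
  rw [lt_div_iff₀ Real.pi_pos]
  nlinarith [Real.pi_lt_d6]

lemma ip2 : 1 / π < 0.318311 := by
  rw [div_lt_iff₀ Real.pi_pos]
  nlinarith [Real.pi_gt_d6]

lemma s2a : 1.41421 < √2 := by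
  rw [Real.lt_sqrt (by norm_num)]; norm_num

lemma s2b : √2 < 1.41422 := by
  rw [Real.sqrt_lt' (by norm_num)]; norm_num

lemma s3a : 1.73205 < √3 := by
  rw [Real.lt_sqrt (by norm_num)]; norm_num

lemma s3b : √3 < 1.73206 := by
  rw [Real.sqrt_lt' (by norm_num)]; norm_num

/-- `cos (π / 8)` -/
lemma c8 : 0.92387 < Real.cos (π / 8) ∧ Real.cos (π / 8) < 0.92389 := by
  rw [Real.cos_pi_div_eight]
  have h1 := s2a
  have h2 := s2b
  have h3 : 1.84774 < √(2 + √2) := by
    rw [Real.lt_sqrt (by norm_num)]; nlinarith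
  have h4 : √(2 + √2) < 1.84778 := by
    rw [Real.sqrt_lt' (by norm_num)]; nlinarith
  constructor <;> linarith

/-- `sin (π / 8)` -/
lemma s8 : 0.38267 < Real.sin (π / 8) ∧ Real.sin (π / 8) < 0.38270 := by
  rw [Real.sin_pi_div_eight]
  have h1 := s2a
  have h2 := s2b
  have h3 : 0.76534 < √(2 - √2) := by
    rw [Real.lt_sqrt (by norm_num)]; nlinarith
  have h4 : √(2 - √2) < 0.76540 := by
    rw [Real.sqrt_lt' (by norm_num)]; nlinarith
  constructor <;> linarith

/-! ### Values of `Lc` -/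

lemma Lc_third : Lc (1 / 3) ≤ 0.10786 := by
  have h := Lc_jen (p := 1 / 3) (q := 1 / 2) (A := 1.91) (by norm_num) (by norm_num) (by norm_num)
    (by norm_num)
  rw [Lc_half, show π * (1 / 3) = π / 3 by ring, Real.cos_pi_div_three, cos_half] at h
  have h1 : Real.log 1.91 ≤ 0.64711 := log_le' 8 (by norm_num) (by norm_num)
    (by norm_num [Finset.sum_range_succ, Nat.factorial])
  have h2 := ip2
  have h3 : ((1 : ℝ) / 2 - 0) / π = 1 / 2 * (1 / π) := by ring
  rw [h3] at h
  norm_num at h h1 h2 ⊢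
  linarith

lemma Lc_38 : Lc (3 / 8) ≤ 0.08343 := by
  have h := Lc_jen (p := 3 / 8) (q := 1 / 2) (A := 1.949) (by norm_num) (by norm_num)
    (by norm_num) (by norm_num)
  have hc : Real.cos (π * (3 / 8)) = Real.sin (π / 8) := by
    rw [← Real.cos_pi_div_two_sub]; congr 1; ring
  rw [Lc_half, hc, cos_half] at h
  have h1 : Real.log 1.949 ≤ 0.66732 := log_le' 8 (by norm_num) (by norm_num)
    (by norm_num [Finset.sum_range_succ, Nat.factorial])
  have h2 := ip2
  have h2' := ip1
  have h3 := s8.2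
  have h3' := s8.1
  have h4 : (Real.sin (π / 8) - 0) / π = Real.sin (π / 8) * (1 / π) := by ring
  rw [h4] at h
  have h5 : Real.sin (π / 8) * (1 / π) ≤ 0.38270 * 0.318311 :=
    mul_le_mul h3.le h2.le (by positivity) (by norm_num)
  generalize Real.sin (π / 8) * (1 / π) = X at h h5
  norm_num at h h1 h5 ⊢
  linarith

lemma Lc_14 : Lc (1 / 4) ≤ 0.14621 := by
  have h := Lc_jen (p := 1 / 4) (q := 3 / 8) (A := 1.652) (by norm_num) (by norm_num)
    (by norm_num) (by norm_num)
  have hc : Real.cos (π * (3 / 8)) = Real.sin (π / 8) := by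
    rw [← Real.cos_pi_div_two_sub]; congr 1; ring
  rw [hc, show π * (1 / 4) = π / 4 by ring, Real.cos_pi_div_four] at h
  have h1 : Real.log 1.652 ≤ 0.50199 := log_le' 8 (by norm_num) (by norm_num)
    (by norm_num [Finset.sum_range_succ, Nat.factorial])
  have h2 := ip2
  have h3 := s8.1
  have h3' := s2b
  have h4 : (√2 / 2 - Real.sin (π / 8)) / π = (√2 / 2 - Real.sin (π / 8)) * (1 / π) := by ring
  rw [h4] at h
  have h5 : (√2 / 2 - Real.sin (π / 8)) * (1 / π) ≤ (1.41422 / 2 - 0.38267) * 0.318311 :=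
    mul_le_mul (by linarith) h2.le (by positivity) (by norm_num)
  have h6 := Lc_38
  generalize (√2 / 2 - Real.sin (π / 8)) * (1 / π) = X at h h5
  norm_num at h h1 h5 h6 ⊢
  linarith

/-! ### Values of `Hf` -/

lemma H0 (C : ℝ) : Hf C 0 = 0 := by simp [Hf]

lemma sin0 : Real.sin (2 * π * 0) = 0 := by simp

lemma H1_sixth : Hf (13 / 12) (1 / 6) ≤ 0.22306 := by
  have h := Hf_jen (C := 13 / 12) (p := 0) (q := 1 / 12) (A := 4.0765) (by norm_num) (by norm_num)
    (by norm_num)
  have h' := Hf_jen (C := 13 / 12) (p := 1 / 12) (q := 1 / 6) (A := 3.565) (by norm_num)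
    (by norm_num) (by norm_num)
  rw [H0, sin0, show 2 * π * (1 / 12) = π / 6 by ring, Real.sin_pi_div_six] at h
  rw [show 2 * π * (1 / 12) = π / 6 by ring, Real.sin_pi_div_six,
    show 2 * π * (1 / 6) = π / 3 by ring, Real.sin_pi_div_three] at h'
  have h1 : Real.log 4.0765 ≤ 1.40525 := log_le' 11 (by norm_num) (by norm_num)
    (by norm_num [Finset.sum_range_succ, Nat.factorial])
  have h2 : Real.log 3.565 ≤ 1.27117 := log_le' 11 (by norm_num) (by norm_num)
    (by norm_num [Finset.sum_range_succ, Nat.factorial])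
  have h3 := ip2
  have h4 := s3b
  have h5 : ((1 : ℝ) / 2 - 0) / π = 1 / 2 * (1 / π) := by ring
  have h6 : (√3 / 2 - 1 / 2) / π = (√3 / 2 - 1 / 2) * (1 / π) := by ring
  have h7 : (√3 / 2 - 1 / 2) * (1 / π) ≤ (1.73206 / 2 - 1 / 2) * 0.318311 :=
    mul_le_mul (by linarith) h3.le (by positivity) (by norm_num)
  rw [h5] at h
  rw [h6] at h'
  generalize (√3 / 2 - 1 / 2) * (1 / π) = X at h' h7
  norm_num at h h' h1 h2 h3 h7 ⊢
  linarith

lemma H1_quart : Hf (13 / 12) (1 / 4) ≤ 0.30592 := by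
  have h := Hf_jen (C := 13 / 12) (p := 0) (q := 1 / 8) (A := 3.967) (by norm_num) (by norm_num)
    (by norm_num)
  have h' := Hf_jen (C := 13 / 12) (p := 1 / 8) (q := 1 / 4) (A := 2.9125) (by norm_num)
    (by norm_num) (by norm_num)
  rw [H0, sin0, show 2 * π * (1 / 8) = π / 4 by ring, Real.sin_pi_div_four] at h
  rw [show 2 * π * (1 / 8) = π / 4 by ring, Real.sin_pi_div_four,
    show 2 * π * (1 / 4) = π / 2 by ring, Real.sin_pi_div_two] at h'
  have h1 : Real.log 3.967 ≤ 1.37802 := log_le' 11 (by norm_num) (by norm_num)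
    (by norm_num [Finset.sum_range_succ, Nat.factorial])
  have h2 : Real.log 2.9125 ≤ 1.06902 := log_le' 11 (by norm_num) (by norm_num)
    (by norm_num [Finset.sum_range_succ, Nat.factorial])
  have h3 := ip2
  have h4 := s2b
  have h4' := s2a
  have h5 : (√2 / 2 - 0) / π = (√2 / 2) * (1 / π) := by ring
  have h6 : (1 - √2 / 2) / π = (1 - √2 / 2) * (1 / π) := by ring
  have h7 : (√2 / 2) * (1 / π) ≤ (1.41422 / 2) * 0.318311 :=
    mul_le_mul (by linarith) h3.le (by positivity) (by norm_num)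
  have h8 : (1 - √2 / 2) * (1 / π) ≤ (1 - 1.41421 / 2) * 0.318311 :=
    mul_le_mul (by linarith) h3.le (by positivity) (by norm_num)
  rw [h5] at h
  rw [h6] at h'
  generalize (√2 / 2) * (1 / π) = X at h h7
  generalize (1 - √2 / 2) * (1 / π) = Z at h' h8
  norm_num at h h' h1 h2 h7 h8 ⊢
  linarith

lemma H2_316 : Hf (5 / 4) (3 / 16) ≤ 0.26250 := by
  have h := Hf_jen (C := 5 / 4) (p := 0) (q := 1 / 8) (A := 4.3006) (by norm_num) (by norm_num)
    (by norm_num)
  have h' := Hf_jen (C := 5 / 4) (p := 1 / 8) (q := 3 / 16) (A := 3.604) (by norm_num)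
    (by norm_num) (by norm_num)
  rw [H0, sin0, show 2 * π * (1 / 8) = π / 4 by ring, Real.sin_pi_div_four] at h
  have hs : Real.sin (2 * π * (3 / 16)) = Real.cos (π / 8) := by
    rw [← Real.cos_pi_div_two_sub]; congr 1; ring
  rw [show 2 * π * (1 / 8) = π / 4 by ring, Real.sin_pi_div_four, hs] at h'
  have h1 : Real.log 4.3006 ≤ 1.45877 := log_le' 11 (by norm_num) (by norm_num)
    (by norm_num [Finset.sum_range_succ, Nat.factorial])
  have h2 : Real.log 3.604 ≤ 1.28206 := log_le' 11 (by norm_num) (by norm_num)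
    (by norm_num [Finset.sum_range_succ, Nat.factorial])
  have h3 := ip2
  have h4 := s2b
  have h4' := s2a
  have h9 := c8.2
  have h5 : (√2 / 2 - 0) / π = (√2 / 2) * (1 / π) := by ring
  have h6 : (Real.cos (π / 8) - √2 / 2) / π = (Real.cos (π / 8) - √2 / 2) * (1 / π) := by ring
  have h7 : (√2 / 2) * (1 / π) ≤ (1.41422 / 2) * 0.318311 :=
    mul_le_mul (by linarith) h3.le (by positivity) (by norm_num)
  have h8 : (Real.cos (π / 8) - √2 / 2) * (1 / π) ≤ (0.92389 - 1.41421 / 2) * 0.318311 :=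
    mul_le_mul (by linarith) h3.le (by positivity) (by norm_num)
  rw [h5] at h
  rw [h6] at h'
  generalize (√2 / 2) * (1 / π) = X at h h7
  generalize (Real.cos (π / 8) - √2 / 2) * (1 / π) = Z at h' h8
  norm_num at h h' h1 h2 h7 h8 ⊢
  linarith

lemma H2_quart : Hf (5 / 4) (1 / 4) ≤ 0.32880 := by
  have h' := Hf_jen (C := 5 / 4) (p := 3 / 16) (q := 1 / 4) (A := 2.888) (by norm_num)
    (by norm_num) (by norm_num)
  have hs : Real.sin (2 * π * (3 / 16)) = Real.cos (π / 8) := by
    rw [← Real.cos_pi_div_two_sub]; congr 1; ring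
  rw [show 2 * π * (1 / 4) = π / 2 by ring, Real.sin_pi_div_two, hs] at h'
  have h2 : Real.log 2.888 ≤ 1.06057 := log_le' 11 (by norm_num) (by norm_num)
    (by norm_num [Finset.sum_range_succ, Nat.factorial])
  have h3 := ip2
  have h9 := c8.1
  have h6 : (1 - Real.cos (π / 8)) / π = (1 - Real.cos (π / 8)) * (1 / π) := by ring
  have h8 : (1 - Real.cos (π / 8)) * (1 / π) ≤ (1 - 0.92387) * 0.318311 :=
    mul_le_mul (by linarith) h3.le (by positivity) (by norm_num)
  rw [h6] at h'
  have h10 := H2_316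
  generalize (1 - Real.cos (π / 8)) * (1 / π) = Z at h' h8
  norm_num at h' h2 h8 h10 ⊢
  linarith

end Pool.Agent.Y108.TK
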