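import Pool.Agent.Y813.TK.Ineq
import Pool.Agent.Y988.TK.Vol
import Pool.Agent.Y51.TK.G6

/-!
# Turk's head knots: bounds of the rate of a pair on an arbitrary line

The edge `(w, w')` is the pair `a = 1 / 2 + w`, `b = 1 / 2 - w'`.
-/

set_option autoImplicit false

namespace Pool.Agent.Y108.TK

open Set Filter Topology MeasureTheory intervalIntegral
open scoped Real Interval
open Pool.Agent.Y472.K (Lc lf Ep ee S_JEN S_G1 S_G2 S_G5)
open Pool.Agent.Y813.TK (ps ps_cont ps_pos_arg ps_anti lf_cont lf_zero lf_le ph int_lf Lc_cont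
  Lc_deriv Lc_one ee_cont ee_deriv ee_one der_pos der_neg ls_int arg_ne)

/-- the rate of the edge `(w, w')` -/
noncomputable def ed (x y w w' : ℝ) : ℝ := Ep x y (1 / 2 + w) (1 / 2 - w')

/-- the primitive of `log (2 C + 2 cos 2 π s)` -/
noncomputable def Hf (C w : ℝ) : ℝ := ∫ s in (0 : ℝ)..w, ps C s

lemma lf_refl (x y t : ℝ) : lf x y (1 - t) = lf x y t := by
  unfold Pool.Agent.Y472.K.lf
  have : Real.cos (2 * π * (1 - t)) = Real.cos (2 * π * t) := by
    rw [show 2 * π * (1 - t) = 2 * π - 2 * π * t by ring, Real.cos_two_pi_sub]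
  rw [this]

lemma lf_int_refl (x y a b : ℝ) : ∫ t in b..a, lf x y t = ∫ t in (1 - a)..(1 - b), lf x y t := by
  have h := intervalIntegral.integral_comp_sub_left (a := b) (b := a) (fun t => lf x y t) 1
  rw [← h]
  apply intervalIntegral.integral_congr
  intro t _
  exact (lf_refl x y t).symm

lemma ed_symm (x y w w' : ℝ) : ed x y w w' = ed x y w' w := by
  unfold ed Pool.Agent.Y472.K.Ep
  rw [lf_int_refl x y (1 / 2 + w) (1 / 2 - w')]
  congr 2
  · ring
  · congr 1 <;> ring

lemma Ep_refl (x y a b : ℝ) : Ep x y a b = Ep x y (1 - b) (1 - a) := by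
  unfold Pool.Agent.Y472.K.Ep
  rw [lf_int_refl x y a b]
  congr 2
  ring

lemma ed_G1 (hJ : S_JEN) (h1 : S_G1) {x y w w' : ℝ} (hy : 0 < y) (hx : |x| ≤ π) (hw : 0 ≤ w)
    (hw1 : w ≤ 1 / 2) (hw' : 0 ≤ w') (hw1' : w' ≤ 1 / 2) : ed x y w w' ≤ ed 0 y w w' := by
  have := (h1 hJ x y (1 / 2 + w) (1 / 2 - w') hy hx (by linarith) (by linarith) (by linarith)
    (by linarith)).1
  unfold ed Pool.Agent.Y472.K.Ep
  linarith

lemma ed_zero {y w w' : ℝ} (hy : 0 < y) :
    ed 0 y w w' = Lc (w + w') + 1 / 2 * (Hf (Real.cosh y) w + Hf (Real.cosh y) w') := by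
  unfold ed Pool.Agent.Y472.K.Ep
  rw [int_lf hy]
  unfold Hf
  rw [show (1 : ℝ) / 2 + w - (1 / 2 - w') = w + w' by ring,
    show (1 : ℝ) / 2 + w - 1 / 2 = w by ring, show (1 : ℝ) / 2 - (1 / 2 - w') = w' by ring]

lemma ed_ee (hJ : S_JEN) (h1 : S_G1) (h2 : S_G2) {x y w w' : ℝ} (hy : 0 < y) (hx : |x| ≤ π)
    (hw : 0 ≤ w) (hw1 : w ≤ 1 / 2) (hw' : 0 ≤ w') (hw1' : w' ≤ 1 / 2) :
    ed x y w w' ≤ ee (Real.cosh y) (w + w') := by
  refine (ed_G1 hJ h1 hy hx hw hw1 hw' hw1').trans ?_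
  have := (h2 y (1 / 2 + w) (1 / 2 - w') hy (by linarith) (by linarith) (by linarith)
    (by linarith)).1
  rwa [show (1 : ℝ) / 2 + w - (1 / 2 - w') = w + w' by ring] at this

/-! ### One-sided pairs -/

/-- the majorant -/
noncomputable def um (C s : ℝ) : ℝ := Real.log (2 * C + 2 * max (Real.cos (2 * π * s)) 0)

lemma um_cont {C : ℝ} (hC : 1 ≤ C) : Continuous (um C) := by
  unfold um
  apply Continuous.log (by fun_prop)
  intro t
  have := le_max_right (Real.cos (2 * π * t)) 0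
  positivity

lemma um_anti {C : ℝ} (hC : 1 ≤ C) {s t : ℝ} (h0 : 0 ≤ s) (h1 : s ≤ t) (h2 : t ≤ 1 / 2) :
    um C t ≤ um C s := by
  unfold um
  have hpi := Real.pi_pos
  have ha : Real.cos (2 * π * t) ≤ Real.cos (2 * π * s) :=
    Real.cos_le_cos_of_nonneg_of_le_pi (by positivity) (by nlinarith) (by nlinarith)
  apply Real.log_le_log
  · have := le_max_right (Real.cos (2 * π * t)) 0
    positivity
  · have := max_le_max_right 0 ha
    linarith

lemma normSq_eq (x y k : ℝ) :
    ‖2 * Complex.cos (x + y * Complex.I) - 2 * (k : ℂ)‖ ^ 2 =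
      4 * (Real.cos x ^ 2 + Real.cosh y ^ 2 - 1 - 2 * Real.cos x * Real.cosh y * k + k ^ 2) := by
  have h := Complex.cos_add (x : ℂ) (y * Complex.I)
  rw [Complex.cos_mul_I, Complex.sin_mul_I] at h
  rw [h, ← Complex.normSq_eq_norm_sq, Complex.normSq_apply]
  simp only [Complex.sub_re, Complex.sub_im, Complex.mul_re, Complex.mul_im, Complex.I_re,
    Complex.I_im, ← Complex.ofReal_cos, ← Complex.ofReal_sin, ← Complex.ofReal_cosh,
    ← Complex.ofReal_sinh, Complex.ofReal_re, Complex.ofReal_im, Complex.re_ofNat,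
    Complex.im_ofNat]
  have h1 := Real.cosh_sq y
  have h2 := Real.sin_sq_add_cos_sq x
  have h3 : Real.sinh y ^ 2 = Real.cosh y ^ 2 - 1 := by linarith
  have h4 : Real.sin x ^ 2 = 1 - Real.cos x ^ 2 := by linarith
  linear_combination 4 * Real.sinh y ^ 2 * h4 + 4 * (1 - Real.cos x ^ 2) * h3

/-- the pointwise bound, the good sign -/
lemma norm_le_of {x y k : ℝ} (hk : |k| ≤ 1) (hs : 0 ≤ Real.cos x * k) :
    ‖2 * Complex.cos (x + y * Complex.I) - 2 * (k : ℂ)‖ ≤ 2 * Real.cosh y := by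
  have hC := Real.one_le_cosh y
  have h := normSq_eq x y k
  have hc : |Real.cos x| ≤ 1 := Real.abs_cos_le_one x
  have h1 : (Real.cos x - k) ^ 2 ≤ 1 := by
    rw [abs_le] at hk hc
    rcases le_total 0 k with h0 | h0
    · rcases eq_or_lt_of_le h0 with h00 | h00
      · rw [← h00]; nlinarith
      · have : 0 ≤ Real.cos x := nonneg_of_mul_nonneg_left hs h00
        nlinarith
    · rcases eq_or_lt_of_le h0 with h00 | h00
      · rw [h00]; nlinarith
      · have : Real.cos x ≤ 0 := by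
          by_contra hcon
          push Not at hcon
          nlinarith
        nlinarith
  have h2 : ‖2 * Complex.cos (x + y * Complex.I) - 2 * (k : ℂ)‖ ^ 2 ≤ (2 * Real.cosh y) ^ 2 := by
    rw [h]
    nlinarith [mul_le_mul_of_nonneg_left hC hs]
  exact (abs_le_of_sq_le_sq' h2 (by linarith)).2

lemma lf_le_um_neg {x y : ℝ} (hy : 0 < y) (hx : Real.cos x ≤ 0) (t : ℝ) :
    lf x y t ≤ um (Real.cosh y) t := by
  rcases le_total 0 (Real.cos (2 * π * t)) with h | h
  · refine (lf_le hy t).trans (le_of_eq ?_)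
    unfold ph um
    rw [abs_of_nonneg h, max_eq_left h]
  · unfold Pool.Agent.Y472.K.lf um
    rw [max_eq_right h, mul_zero, add_zero]
    apply Real.log_le_log (norm_pos_iff.2 (arg_ne hy t))
    exact norm_le_of (Real.abs_cos_le_one _) (mul_nonneg_of_nonpos_of_nonpos hx h)

lemma lf_le_um_pos {x y : ℝ} (hy : 0 < y) (hx : 0 ≤ Real.cos x) (t : ℝ) :
    lf x y t ≤ um (Real.cosh y) (1 / 2 - t) := by
  have e : Real.cos (2 * π * (1 / 2 - t)) = -Real.cos (2 * π * t) := by
    rw [show 2 * π * (1 / 2 - t) = π - 2 * π * t by ring, Real.cos_pi_sub]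
  rcases le_total 0 (Real.cos (2 * π * t)) with h | h
  · unfold Pool.Agent.Y472.K.lf um
    rw [e, max_eq_right (by linarith : -Real.cos (2 * π * t) ≤ 0), mul_zero, add_zero]
    apply Real.log_le_log (norm_pos_iff.2 (arg_ne hy t))
    exact norm_le_of (Real.abs_cos_le_one _) (mul_nonneg hx h)
  · refine (lf_le hy t).trans (le_of_eq ?_)
    unfold ph um
    rw [e, abs_of_nonpos h, max_eq_left (by linarith : 0 ≤ -Real.cos (2 * π * t))]

lemma um_int {C a b : ℝ} (hC : 1 ≤ C) (h0 : 0 ≤ b) (h1 : b ≤ a) (h2 : a ≤ 1 / 2) :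
    ∫ t in b..a, um C t ≤ ∫ t in (0 : ℝ)..(a - b), um C t := by
  have hc := um_cont hC
  have e : ∫ t in b..a, um C t = ∫ s in (0 : ℝ)..(a - b), um C (s + b) := by
    rw [intervalIntegral.integral_comp_add_right (fun t => um C t)]
    congr 1 <;> ring
  rw [e]
  apply intervalIntegral.integral_mono_on (by linarith)
    ((hc.comp (by fun_prop)).intervalIntegrable _ _) (hc.intervalIntegrable _ _)
  intro s hs
  exact um_anti hC hs.1 (by linarith) (by linarith [hs.2])

/-- the bound of the one-sided pairs -/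
noncomputable def mm (C δ : ℝ) : ℝ := Lc δ + 1 / 2 * ∫ s in (0 : ℝ)..δ, um C s

lemma Ep_left {x y a b : ℝ} (hy : 0 < y) (hb : 0 ≤ b) (hba : b ≤ a) (ha : a ≤ 1 / 2) :
    Ep x y a b ≤ mm (Real.cosh y) (a - b) := by
  have hC : 1 ≤ Real.cosh y := Real.one_le_cosh y
  have hc := um_cont hC
  unfold Pool.Agent.Y472.K.Ep mm
  have key : ∫ t in b..a, lf x y t ≤ ∫ s in (0 : ℝ)..(a - b), um (Real.cosh y) s := by
    rcases le_total (Real.cos x) 0 with hx | hx
    · refine le_trans ?_ (um_int hC hb hba ha)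
      apply intervalIntegral.integral_mono_on hba ((lf_cont hy).intervalIntegrable _ _)
        (hc.intervalIntegrable _ _)
      intro t _
      exact lf_le_um_neg hy hx t
    · have e : ∫ t in b..a, um (Real.cosh y) (1 / 2 - t) =
          ∫ s in (1 / 2 - a)..(1 / 2 - b), um (Real.cosh y) s :=
        intervalIntegral.integral_comp_sub_left (fun t => um (Real.cosh y) t) (1 / 2)
      have h3 := um_int hC (a := 1 / 2 - b) (b := 1 / 2 - a) (by linarith) (by linarith)
        (by linarith)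
      rw [show (1 : ℝ) / 2 - b - (1 / 2 - a) = a - b by ring] at h3
      refine le_trans ?_ h3
      rw [← e]
      apply intervalIntegral.integral_mono_on hba ((lf_cont hy).intervalIntegrable _ _)
        ((hc.comp (by fun_prop)).intervalIntegrable _ _)
      intro t _
      exact lf_le_um_pos hy hx t
  linarith

/-- one-sided edges -/
lemma ed_one {x y w w' : ℝ} (hy : 0 < y) (hw : w ≤ 1 / 2) (hw' : w' ≤ 1 / 2)
    (hn : w ≤ 0 ∨ w' ≤ 0) (hs : 0 ≤ w + w') : ed x y w w' ≤ mm (Real.cosh y) (w + w') := by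
  rcases hn with h | h
  · have := Ep_left (x := x) (a := 1 / 2 + w) (b := 1 / 2 - w') hy (by linarith) (by linarith)
      (by linarith)
    rw [show (1 : ℝ) / 2 + w - (1 / 2 - w') = w + w' by ring] at this
    exact this
  · have := Ep_left (x := x) (a := 1 / 2 + w') (b := 1 / 2 - w) hy (by linarith) (by linarith)
      (by linarith)
    rw [show (1 : ℝ) / 2 + w' - (1 / 2 - w) = w + w' by ring] at this
    rw [ed_symm]
    exact this

end Pool.Agent.Y108.TK
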