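import Pool.Agent.Y108.TK.Low

/-!
# Turk's head knots: `STAR` for `n = 4`
-/

set_option autoImplicit false

namespace Pool.Agent.Y108.TK

open Set Filter Topology MeasureTheory intervalIntegral
open scoped Real Interval
open Pool.Agent.Y472.K (Lc lf Ep ee ga Ch yn bs Es Dn HH PO STAR S_PAR S_JEN S_G1 S_G2 S_G3 S_G5)
open Pool.Agent.Y813.TK (ps ps_cont ps_pos_arg ps_anti Lc_cont
  Lc_deriv Lc_one ee_cont ee_deriv ee_one der_pos der_neg ls_int g2)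
open Pool.Agent.Y988.TK (Lc_sub Lc_half Lc_refl)

/-! ### The edges on the two lines -/

section
variable {x : ℝ} (hJ : S_JEN) (h1 : S_G1) (h2 : S_G2) (hx : |x| ≤ π)
include hJ h1 h2 hx

lemma E1 {w w' : ℝ} (hw : w ≤ 1 / 2) (hw' : w' ≤ 1 / 2) (hs : 0 ≤ w + w') :
    ed x Y1 w w' ≤ 0.3315 := by
  by_cases hn : w ≤ 0 ∨ w' ≤ 0
  · have h3 := ed_one (x := x) Y1_pos hw hw' hn hs
    rw [cosh1] at h3
    have h4 := mm1 (δ := w + w') hs (by rcases hn with h | h <;> linarith)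
    norm_num at h4 ⊢
    linarith
  · push Not at hn
    have h3 := ed_ee hJ h1 h2 Y1_pos hx hn.1.le hw hn.2.le hw'
    rw [cosh1] at h3
    exact h3.trans (ee1 hJ hs (by linarith))

omit hJ h1 h2 hx in
lemma E1n {w w' : ℝ} (hw : w ≤ 1 / 2) (hw' : w' ≤ 1 / 2) (hs : 0 ≤ w + w')
    (hn : w ≤ 0 ∨ w' ≤ 0) : ed x Y1 w w' ≤ 0.2998 := by
  have h3 := ed_one (x := x) Y1_pos hw hw' hn hs
  rw [cosh1] at h3
  exact h3.trans (mm1 (δ := w + w') hs (by rcases hn with h | h <;> linarith))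

lemma E2 {w w' : ℝ} (hw : w ≤ 1 / 2) (hw' : w' ≤ 1 / 2) (hs : 0 ≤ w + w') :
    ed x Y2 w w' ≤ 0.3466 := by
  by_cases hn : w ≤ 0 ∨ w' ≤ 0
  · have h3 := ed_one (x := x) Y2_pos hw hw' hn hs
    rw [cosh2] at h3
    have h4 := mm2 (δ := w + w') hs (by rcases hn with h | h <;> linarith)
    norm_num at h4 ⊢
    linarith
  · push Not at hn
    have h3 := ed_ee hJ h1 h2 Y2_pos hx hn.1.le hw hn.2.le hw'
    rw [cosh2] at h3
    exact h3.trans (ee2 hJ hs (by linarith))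

omit hJ h1 h2 hx in
lemma E2n {w w' : ℝ} (hw : w ≤ 1 / 2) (hw' : w' ≤ 1 / 2) (hs : 0 ≤ w + w')
    (hn : w ≤ 0 ∨ w' ≤ 0) : ed x Y2 w w' ≤ 0.3152 := by
  have h3 := ed_one (x := x) Y2_pos hw hw' hn hs
  rw [cosh2] at h3
  exact h3.trans (mm2 (δ := w + w') hs (by rcases hn with h | h <;> linarith))

lemma P1 {w w' : ℝ} (hw : w ≤ 1 / 2) (hw' : w' ≤ 1 / 2) (hs : 13 / 15 ≤ w + w') :
    ed x Y1 w w' ≤ Y1 / 2 := by
  have h3 := ed_ee hJ h1 h2 Y1_pos hx (w := w) (w' := w') (by linarith) hw (by linarith) hw'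
  rw [cosh1] at h3
  exact h3.trans (ee1_badd hJ hs (by linarith))

lemma P1' {w w' : ℝ} (hw : w ≤ 1 / 2) (hw' : w' ≤ 1 / 2) (hs : 13 / 15 ≤ w + w')
    (hn : w ≤ 13 / 30 ∨ w' ≤ 13 / 30) : ed x Y1 w w' ≤ 0.1630 := by
  have h3 := ed_ee hJ h1 h2 Y1_pos hx (w := w) (w' := w') (by linarith) hw (by linarith) hw'
  rw [cosh1] at h3
  exact h3.trans (ee1_bad hJ hs (by rcases hn with h | h <;> linarith))

lemma P2 {w w' : ℝ} (hw : w ≤ 1 / 2) (hw' : w' ≤ 1 / 2) (hs : 13 / 15 ≤ w + w') :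
    ed x Y2 w w' ≤ Y2 / 2 := by
  have h3 := ed_ee hJ h1 h2 Y2_pos hx (w := w) (w' := w') (by linarith) hw (by linarith) hw'
  rw [cosh2] at h3
  exact h3.trans (ee2_badd hJ hs (by linarith))

omit h2 in
lemma A1 {w w0 : ℝ} (hw : 11 / 30 ≤ w) (hw1 : w ≤ 13 / 30) (h0 : 0 ≤ w0)
    (h3 : w0 ≤ 1 / 2) : ed x Y1 w w0 ≤ 0.2689 := by
  have h4 := ed_G1 hJ h1 Y1_pos hx (w := w) (w' := w0) (by linarith) (by linarith) h0 h3
  rw [ed_zero Y1_pos, cosh1] at h4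
  exact h4.trans (adj_a hJ hw hw1 h0 h3)

omit h2 in
lemma A2 {w w0 : ℝ} (hw : 13 / 30 ≤ w) (hw1 : w ≤ 1 / 2) (h0 : 0 ≤ w0)
    (h3 : w0 ≤ 1 / 2) : ed x Y1 w w0 ≤ 0.2075 := by
  have h4 := ed_G1 hJ h1 Y1_pos hx (w := w) (w' := w0) (by linarith) hw1 h0 h3
  rw [ed_zero Y1_pos, cosh1] at h4
  exact h4.trans (adj_b hJ hw hw1 h0 h3)

/-- a bad pair and one straddling neighbour -/
lemma PA {w w' w0 : ℝ} (hw : w ≤ 1 / 2) (hw' : w' ≤ 1 / 2) (hs : 13 / 15 ≤ w + w')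
    (h0 : 0 ≤ w0) (h3 : w0 ≤ 1 / 2) : ed x Y1 w w' + ed x Y1 w w0 ≤ 0.4319 := by
  rcases le_total w (13 / 30) with h | h
  · have e1 := P1' hJ h1 h2 hx hw hw' hs (Or.inl h)
    have e2 := A1 hJ h1 hx (w := w) (w0 := w0) (by linarith) h h0 h3
    norm_num at e1 e2 ⊢
    linarith
  · have e1 := P1 hJ h1 h2 hx hw hw' hs
    have e2 := A2 hJ h1 hx (w := w) (w0 := w0) h hw h0 h3
    have e3 := Y1_lt
    norm_num at e1 e2 e3 ⊢
    linarith

/-- a bad pair and two straddling neighbours -/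
lemma PAA {w w' w0 w0' : ℝ} (hw : w ≤ 1 / 2) (hw' : w' ≤ 1 / 2) (hs : 13 / 15 ≤ w + w')
    (h0 : 0 ≤ w0) (h3 : w0 ≤ 1 / 2) (h0' : 0 ≤ w0') (h3' : w0' ≤ 1 / 2) :
    ed x Y1 w w' + ed x Y1 w w0 + ed x Y1 w' w0' ≤ 0.6394 := by
  rcases le_total w' (13 / 30) with h | h
  · have e1 := PA hJ h1 h2 hx hw' hw (by linarith) h0' h3'
    have e2 := A2 hJ h1 hx (w := w) (w0 := w0) (by linarith) hw h0 h3
    rw [ed_symm x Y1 w w']
    norm_num at e1 e2 ⊢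
    linarith
  · have e1 := PA hJ h1 h2 hx hw hw' hs h0 h3
    have e2 := A2 hJ h1 hx (w := w') (w0 := w0') h hw' h0' h3'
    norm_num at e1 e2 ⊢
    linarith

end

/-- the cycle with a bad edge -/
lemma cyc (hJ : S_JEN) (h1 : S_G1) (h2 : S_G2) (hD : 1.9569 ≤ Dn 4)
    (w0 w1 w2 w3 w4 w5 w6 w7 : ℝ)
    (b0 : w0 ≤ 1 / 2) (b1 : w1 ≤ 1 / 2) (b2 : w2 ≤ 1 / 2) (b3 : w3 ≤ 1 / 2) (b4 : w4 ≤ 1 / 2)
    (b5 : w5 ≤ 1 / 2) (b6 : w6 ≤ 1 / 2) (b7 : w7 ≤ 1 / 2)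
    (s12 : 0 ≤ w1 + w2) (s23 : 0 ≤ w2 + w3) (s34 : 0 ≤ w3 + w4)
    (s45 : 0 ≤ w4 + w5) (s56 : 0 ≤ w5 + w6) (s67 : 0 ≤ w6 + w7) (s70 : 0 ≤ w7 + w0)
    (hbad : 13 / 15 ≤ w0 + w1) :
    ∃ y : ℝ, 0 < y ∧ ∀ x ∈ Icc (-π) π,
      ed x y w0 w1 + ed x y w1 w2 + ed x y w2 w3 + ed x y w3 w4 + ed x y w4 w5 +
        ed x y w5 w6 + ed x y w6 w7 + ed x y w7 w0 - y < Dn 4 := by
  have hy1 := Y1_gt
  have hy2 := Y2_gt
  rcases le_total 0 w2 with c2 | c2 <;> rcases le_total 0 w7 with c7 | c7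
  · refine ⟨Y1, Y1_pos, fun x hx => ?_⟩
    have hx' : |x| ≤ π := abs_le.2 ⟨hx.1, hx.2⟩
    have f1 := PAA hJ h1 h2 hx' b0 b1 hbad c7 b7 c2 b2
    rw [ed_symm x Y1 w0 w7] at f1
    have f2 := E1 hJ h1 h2 hx' b2 b3 s23
    have f3 := E1 hJ h1 h2 hx' b3 b4 s34
    have f4 := E1 hJ h1 h2 hx' b4 b5 s45
    have f5 := E1 hJ h1 h2 hx' b5 b6 s56
    have f6 := E1 hJ h1 h2 hx' b6 b7 s67
    norm_num at f1 f2 f3 f4 f5 f6 hy1 hD
    linarith
  · refine ⟨Y1, Y1_pos, fun x hx => ?_⟩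
    have hx' : |x| ≤ π := abs_le.2 ⟨hx.1, hx.2⟩
    have f1 := PA hJ h1 h2 hx' b1 b0 (by linarith) c2 b2
    rw [ed_symm x Y1 w1 w0] at f1
    have f2 := E1 hJ h1 h2 hx' b2 b3 s23
    have f3 := E1 hJ h1 h2 hx' b3 b4 s34
    have f4 := E1 hJ h1 h2 hx' b4 b5 s45
    have f5 := E1 hJ h1 h2 hx' b5 b6 s56
    have f6 := E1n (x := x) b6 b7 s67 (Or.inr c7)
    have f7 := E1n (x := x) b7 b0 s70 (Or.inl c7)
    norm_num at f1 f2 f3 f4 f5 f6 f7 hy1 hD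
    linarith
  · refine ⟨Y1, Y1_pos, fun x hx => ?_⟩
    have hx' : |x| ≤ π := abs_le.2 ⟨hx.1, hx.2⟩
    have f1 := PA hJ h1 h2 hx' b0 b1 hbad c7 b7
    rw [ed_symm x Y1 w0 w7] at f1
    have f2 := E1n (x := x) b1 b2 s12 (Or.inr c2)
    have f3 := E1n (x := x) b2 b3 s23 (Or.inl c2)
    have f4 := E1 hJ h1 h2 hx' b3 b4 s34
    have f5 := E1 hJ h1 h2 hx' b4 b5 s45
    have f6 := E1 hJ h1 h2 hx' b5 b6 s56
    have f7 := E1 hJ h1 h2 hx' b6 b7 s67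
    norm_num at f1 f2 f3 f4 f5 f6 f7 hy1 hD
    linarith
  · refine ⟨Y2, Y2_pos, fun x hx => ?_⟩
    have hx' : |x| ≤ π := abs_le.2 ⟨hx.1, hx.2⟩
    have f1 := P2 hJ h1 h2 hx' b0 b1 hbad
    have f2 := E2n (x := x) b1 b2 s12 (Or.inr c2)
    have f3 := E2n (x := x) b2 b3 s23 (Or.inl c2)
    have f4 := E2 hJ h1 h2 hx' b3 b4 s34
    have f5 := E2 hJ h1 h2 hx' b4 b5 s45
    have f6 := E2 hJ h1 h2 hx' b5 b6 s56
    have f7 := E2n (x := x) b6 b7 s67 (Or.inr c7)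
    have f8 := E2n (x := x) b7 b0 s70 (Or.inl c7)
    norm_num at f1 f2 f3 f4 f5 f6 f7 f8 hy2 hD
    linarith

/-- the sum over the configuration, starting at the index `r` -/
lemma HH_rot (x y : ℝ) (a b : Fin 4 → ℝ) (r : Fin 4) :
    HH 4 x y a b = (Ep x y (a r) (b r) + Ep x y (a (r + 1)) (b r)) +
      (Ep x y (a (r + 1)) (b (r + 1)) + Ep x y (a (r + 2)) (b (r + 1))) +
      (Ep x y (a (r + 2)) (b (r + 2)) + Ep x y (a (r + 3)) (b (r + 2))) +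
      (Ep x y (a (r + 3)) (b (r + 3)) + Ep x y (a r) (b (r + 3))) - y := by
  unfold Pool.Agent.Y472.K.HH
  rw [Fin.sum_univ_four]
  fin_cases r <;> simp <;> ring

lemma Ep_a (x y a b : ℝ) : Ep x y a b = ed x y (a - 1 / 2) (1 / 2 - b) := by
  unfold ed
  congr 1 <;> ring

lemma Ep_b (x y a b : ℝ) : Ep x y a b = ed x y (1 / 2 - b) (a - 1 / 2) := by
  rw [ed_symm, ← Ep_a]

/-- the symmetric pairs without bad differences -/
lemma ee_good (hPAR : S_PAR) (hJ : S_JEN) (h2 : S_G2) (h3 : S_G3) :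
    ∀ δ : ℝ, 0 ≤ δ → δ ≤ 13 / 15 → ee (Ch 4) δ ≤ Es 4 ∧
      (δ ≠ 1 - 2 * bs 4 → ee (Ch 4) δ < Es 4) := by
  obtain ⟨p1, p2, p3, p4, p5, p6, p7, p8, p9, p10, p11, p12⟩ := hPAR 4 le_rfl
  obtain ⟨δ₁, g1, g2, g3, g4, g5, g6, g7⟩ := h3 hPAR hJ 4 le_rfl
  have hs : Es 4 = ee (Ch 4) (1 - 2 * bs 4) := by
    have h := (h2 (yn 4) (1 - bs 4) (bs 4) p5 (by linarith) (by linarith) (by linarith)
      (by linarith)).2.2 (by ring)
    rw [p6] at h
    rw [Pool.Agent.Y472.K.Es, h]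
    congr 1
    ring
  have hbad : ee (Ch 4) (13 / 15) < Es 4 := by
    have hD := D4_low hPAR
    unfold Pool.Agent.Y472.K.Dn at hD
    have hy := yn4_le hPAR
    have e1 : ee (Ch 4) (13 / 15) = Lc (13 / 15) + Hf (Ch 4) (13 / 30) := by
      rw [ee_eq]; norm_num
    have e2 := Lc_refl (2 / 15)
    have e3 := Lc_215
    have e4 := Hf_ge_of (C := Ch 4) (a := 13 / 30) (b := 1 / 2) p3 (by norm_num)
      (fun t _ => le_ps p3 t)
    have e5 := Hf_half hJ p5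
    rw [p6] at e5
    have e6 : 2 * Ch 4 - 2 = √2 := by rw [Ch4]; ring
    have e7 : Real.log √2 = Real.log 2 / 2 := Real.log_sqrt (by norm_num)
    rw [e6, e7] at e4
    have e8 := Real.log_two_gt_d9
    rw [e1]
    push_cast at hD
    norm_num at hD hy e2 e3 e4 e5 e8 ⊢
    linarith
  intro δ d0 d1
  have key : δ ≠ 1 - 2 * bs 4 → ee (Ch 4) δ < Es 4 := by
    intro hne
    rcases lt_or_gt_of_ne hne with h | h
    · rw [hs]
      exact g4 ⟨d0, h.le⟩ ⟨by linarith, le_rfl⟩ h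
    · rcases le_or_gt δ δ₁ with h' | h'
      · rw [hs]
        exact g5 ⟨le_rfl, g1.le⟩ ⟨h.le, h'⟩ h
      · have h0 := g6.monotoneOn ⟨h'.le, by linarith⟩ ⟨h'.le.trans d1, by norm_num⟩ d1
        exact lt_of_le_of_lt h0 hbad
  refine ⟨?_, key⟩
  by_cases h : δ = 1 - 2 * bs 4
  · rw [h, hs]
  · exact (key h).le

/-- **STAR for `n = 4`** -/
theorem st4 : S_PAR → S_JEN → S_G1 → S_G2 → S_G3 → S_G5 → STAR 4 := by
  intro hPAR hJ hG1 hG2 hG3 hG5 a b hP hne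
  have hD := D4_low hPAR
  by_cases hbad : ∃ r, 13 / 15 < a r - b r ∨ 13 / 15 < a (r + 1) - b r
  · obtain ⟨r, hr⟩ := hbad
    have q0 := hP.nn r
    have q1 := hP.nn (r + 1)
    have q2 := hP.nn (r + 2)
    have q3 := hP.nn (r + 3)
    have t0 := hP.le1 r
    have t1 := hP.le1 (r + 1)
    have t2 := hP.le1 (r + 2)
    have t3 := hP.le1 (r + 3)
    have l0 := hP.le r
    have l1 := hP.le (r + 1)
    have l2 := hP.le (r + 2)
    have l3 := hP.le (r + 3)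
    have m0 := hP.le' r
    have m1 := hP.le' (r + 1)
    have m2 := hP.le' (r + 2)
    have m3 := hP.le' (r + 3)
    have a1 : r + 1 + 1 = r + 2 := by rw [add_assoc]; rfl
    have a2 : r + 2 + 1 = r + 3 := by rw [add_assoc]; rfl
    have a3 : r + 3 + 1 = r := by
      rw [add_assoc, show (3 : Fin 4) + 1 = 0 from rfl, add_zero]
    rw [a1] at m1
    rw [a2] at m2
    rw [a3] at m3
    rcases hr with hr | hr
    · obtain ⟨y, hy, h⟩ := cyc hJ hG1 hG2 hD (a r - 1 / 2) (1 / 2 - b r) (a (r + 1) - 1 / 2)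
        (1 / 2 - b (r + 1)) (a (r + 2) - 1 / 2) (1 / 2 - b (r + 2)) (a (r + 3) - 1 / 2)
        (1 / 2 - b (r + 3)) (by linarith) (by linarith) (by linarith) (by linarith) (by linarith)
        (by linarith) (by linarith) (by linarith) (by linarith) (by linarith) (by linarith)
        (by linarith) (by linarith) (by linarith) (by linarith) (by linarith)
      refine ⟨y, hy, fun x hx => ?_⟩
      have h' := h x hx
      rw [← Ep_a, ← Ep_b, ← Ep_a, ← Ep_b, ← Ep_a, ← Ep_b, ← Ep_a, ← Ep_b] at h'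
      rw [HH_rot x y a b r]
      linarith
    · obtain ⟨y, hy, h⟩ := cyc hJ hG1 hG2 hD (1 / 2 - b r) (a (r + 1) - 1 / 2)
        (1 / 2 - b (r + 1)) (a (r + 2) - 1 / 2) (1 / 2 - b (r + 2)) (a (r + 3) - 1 / 2)
        (1 / 2 - b (r + 3)) (a r - 1 / 2) (by linarith) (by linarith) (by linarith) (by linarith)
        (by linarith)
        (by linarith) (by linarith) (by linarith) (by linarith) (by linarith) (by linarith)
        (by linarith) (by linarith) (by linarith) (by linarith) (by linarith)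
      refine ⟨y, hy, fun x hx => ?_⟩
      have h' := h x hx
      rw [← Ep_b, ← Ep_a, ← Ep_b, ← Ep_a, ← Ep_b, ← Ep_a, ← Ep_b, ← Ep_a] at h'
      rw [HH_rot x y a b r]
      linarith
  · push Not at hbad
    obtain ⟨p1, p2, p3, p4, p5, p6, p7, p8, p9, p10, p11, p12⟩ := hPAR 4 le_rfl
    have e3 := ee_good hPAR hJ hG2 hG3
    have hG1' := hG1 hJ
    -- all the pairs
    have hpair : ∀ x a' b' : ℝ, |x| ≤ π → 0 ≤ b' → b' ≤ a' → a' ≤ 1 → a' - b' ≤ 13 / 15 →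
        Ep x (yn 4) a' b' ≤ Es 4 ∧
          (¬ (a' = 1 - bs 4 ∧ b' = bs 4) → Ep x (yn 4) a' b' < Es 4) := by
      intro x a' b' hx hb hba ha hδ
      by_cases hc : b' ≤ 1 / 2 ∧ 1 / 2 ≤ a'
      · obtain ⟨c1, c2⟩ := hc
        have e1 : Ep x (yn 4) a' b' ≤ Ep 0 (yn 4) a' b' := by
          unfold Pool.Agent.Y472.K.Ep
          have := (hG1' x (yn 4) a' b' p5 hx hb c1 c2 ha).1
          linarith
        have e2 := hG2 (yn 4) a' b' p5 hb c1 c2 ha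
        rw [p6] at e2
        obtain ⟨f1, f2⟩ := e3 (a' - b') (by linarith) hδ
        refine ⟨e1.trans (e2.1.trans f1), fun hne => ?_⟩
        by_cases hs : a' + b' = 1
        · have : a' - b' ≠ 1 - 2 * bs 4 := by
            intro h
            apply hne
            constructor <;> linarith
          exact lt_of_le_of_lt (e1.trans e2.1) (f2 this)
        · exact lt_of_le_of_lt e1 (lt_of_lt_of_le (e2.2.1 hs) f1)
      · have hc' : a' ≤ 1 / 2 ∨ 1 / 2 ≤ b' := by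
          by_contra h
          push Not at h
          exact hc ⟨h.2.le, h.1.le⟩
        have e1 := hG5 x (yn 4) a' b' p5 hb hba ha hc'
        rw [p6] at e1
        have e2 := Pool.Agent.Y51.TK.side_le p3 (δ := a' - b') (by linarith)
          (by rcases hc' with h | h <;> linarith)
        have e4 := lt_of_le_of_lt (e1.trans e2) (Pool.Agent.Y51.TK.half_lt hPAR le_rfl)
        exact ⟨e4.le, fun _ => e4⟩
    refine ⟨yn 4, p5, fun x hx => ?_⟩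
    have hx' : |x| ≤ π := abs_le.2 ⟨hx.1, hx.2⟩
    have hs1 : ∑ r, (Ep x (yn 4) (a r) (b r) + Ep x (yn 4) (a (r + 1)) (b r)) <
        ∑ _r : Fin 4, (Es 4 + Es 4) := by
      apply Finset.sum_lt_sum
      · intro r _
        exact add_le_add (hpair x _ _ hx' (hP.nn r) (hP.le r) (hP.le1 r) (hbad r).1).1
          (hpair x _ _ hx' (hP.nn r) (hP.le' r) (hP.le1 (r + 1)) (hbad r).2).1
      · obtain ⟨r, hr⟩ := not_forall.1 hne
        exact ⟨r, Finset.mem_univ _, add_lt_add_of_lt_of_le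
          ((hpair x _ _ hx' (hP.nn r) (hP.le r) (hP.le1 r) (hbad r).1).2 hr)
          (hpair x _ _ hx' (hP.nn r) (hP.le' r) (hP.le1 (r + 1)) (hbad r).2).1⟩
    rw [Finset.sum_const, Finset.card_univ, Fintype.card_fin, nsmul_eq_mul] at hs1
    unfold Pool.Agent.Y472.K.HH Pool.Agent.Y472.K.Dn
    push_cast at hs1 ⊢
    linarith

end Pool.Agent.Y108.TK
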