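import Pool.Agent.Y108.TK.Pair

/-!
# Turk's head knots: suprema of the rate of the symmetric and of the one-sided pairs
-/

set_option autoImplicit false

namespace Pool.Agent.Y108.TK

open Set Filter Topology MeasureTheory intervalIntegral
open scoped Real Interval
open Pool.Agent.Y472.K (Lc lf Ep ee S_JEN S_G1 S_G2 S_G5)
open Pool.Agent.Y813.TK (ps ps_cont ps_pos_arg ps_anti lf_cont lf_zero lf_le ph int_lf Lc_cont
  Lc_deriv Lc_one ee_cont ee_deriv ee_one der_pos der_neg ls_int arg_ne)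
open Pool.Agent.Y988.TK (Lc_sub Lc_half Lc_refl)

lemma sin_nn {t : ℝ} (h0 : 0 ≤ t) (h1 : t ≤ 1) : 0 ≤ Real.sin (π * t) := by
  have hpi := Real.pi_pos
  exact Real.sin_nonneg_of_nonneg_of_le_pi (by positivity) (by nlinarith)

lemma Lc_le_of {a b M : ℝ} (hab : a ≤ b)
    (h : ∀ t ∈ Icc a b, Real.log (2 * Real.sin (π * t)) ≤ M) : Lc a - Lc b ≤ (b - a) * M := by
  rw [← Lc_sub]
  have : ∫ t in a..b, Real.log (2 * Real.sin (π * t)) ≤ ∫ _t in a..b, M :=
    intervalIntegral.integral_mono_on hab (ls_int a b) (by simp) h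
  rwa [intervalIntegral.integral_const, smul_eq_mul] at this

lemma Lc_ge_of {a b M : ℝ} (hab : a ≤ b)
    (h : ∀ t ∈ Icc a b, M ≤ Real.log (2 * Real.sin (π * t))) : (b - a) * M ≤ Lc a - Lc b := by
  rw [← Lc_sub]
  have : ∫ _t in a..b, M ≤ ∫ t in a..b, Real.log (2 * Real.sin (π * t)) :=
    intervalIntegral.integral_mono_on hab (by simp) (ls_int a b) h
  rwa [intervalIntegral.integral_const, smul_eq_mul] at this

/-- the tangent at `1 / 2` -/
lemma Lc_tan {δ : ℝ} (h0 : 0 ≤ δ) (h1 : δ ≤ 1 / 2) : Lc δ ≤ (1 / 2 - δ) * Real.log 2 := by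
  have h := Lc_le_of (a := δ) (b := 1 / 2) (M := Real.log 2) h1 ?_
  · rw [Lc_half] at h
    linarith
  · intro t ht
    have hs := sin_nn (t := t) (by linarith [ht.1]) (by linarith [ht.2])
    rcases eq_or_lt_of_le hs with h2 | h2
    · rw [← h2, mul_zero, Real.log_zero]
      exact Real.log_nonneg (by norm_num)
    · apply Real.log_le_log (by positivity)
      linarith [Real.sin_le_one (π * t)]

lemma Hf_sub {C : ℝ} (hC : 1 < C) (a b : ℝ) : Hf C b - Hf C a = ∫ s in a..b, ps C s := by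
  have hc := ps_cont hC
  exact intervalIntegral.integral_interval_sub_left (hc.intervalIntegrable _ _)
    (hc.intervalIntegrable _ _)

lemma Hf_le_of {C a b M : ℝ} (hC : 1 < C) (hab : a ≤ b) (h : ∀ t ∈ Icc a b, ps C t ≤ M) :
    Hf C b - Hf C a ≤ (b - a) * M := by
  rw [Hf_sub hC]
  have : ∫ t in a..b, ps C t ≤ ∫ _t in a..b, M :=
    intervalIntegral.integral_mono_on hab ((ps_cont hC).intervalIntegrable _ _) (by simp) h
  rwa [intervalIntegral.integral_const, smul_eq_mul] at this

lemma Hf_ge_of {C a b M : ℝ} (hC : 1 < C) (hab : a ≤ b) (h : ∀ t ∈ Icc a b, M ≤ ps C t) :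
    (b - a) * M ≤ Hf C b - Hf C a := by
  rw [Hf_sub hC]
  have : ∫ _t in a..b, M ≤ ∫ t in a..b, ps C t :=
    intervalIntegral.integral_mono_on hab (by simp) ((ps_cont hC).intervalIntegrable _ _) h
  rwa [intervalIntegral.integral_const, smul_eq_mul] at this

lemma ps_le {C : ℝ} (hC : 1 < C) (t : ℝ) : ps C t ≤ Real.log (2 * C + 2) := by
  unfold ps
  apply Real.log_le_log (ps_pos_arg hC t)
  linarith [Real.cos_le_one (2 * π * t)]

lemma le_ps {C : ℝ} (hC : 1 < C) (t : ℝ) : Real.log (2 * C - 2) ≤ ps C t := by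
  unfold ps
  apply Real.log_le_log (by linarith)
  linarith [Real.neg_one_le_cos (2 * π * t)]

lemma Hf_le {C w : ℝ} (hC : 1 < C) (hw : 0 ≤ w) : Hf C w ≤ w * Real.log (2 * C + 2) := by
  have h := Hf_le_of hC hw (fun t _ => ps_le hC t)
  have h0 : Hf C 0 = 0 := by simp [Hf]
  rw [h0] at h
  linarith

lemma Hf_half (hJ : S_JEN) {y : ℝ} (hy : 0 < y) : Hf (Real.cosh y) (1 / 2) = y / 2 := by
  rw [← ee_one hJ hy]
  unfold Pool.Agent.Y472.K.ee
  rw [Lc_one, zero_add]
  rfl

lemma ee_eq (C δ : ℝ) : ee C δ = Lc δ + Hf C (δ / 2) := rfl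

/-! ### The one-sided pairs -/

lemma mm_le {C σ δ : ℝ} (hC : 1 < C) (hσ : 1 / 4 ≤ σ) (hσ1 : σ ≤ 1 / 2)
    (hσ2 : C ≤ 2 * Real.sin (π * σ) ^ 2) (h0 : 0 ≤ δ) (h1 : δ ≤ 1 / 2) :
    mm C δ ≤ Lc (1 / 4) + 1 / 2 * Hf C (1 / 4) + (σ - 1 / 4) * (1 / 2 * Real.log C) := by
  have hpi := Real.pi_pos
  have hc := um_cont hC.le
  have hlogC : 0 ≤ Real.log C := Real.log_nonneg hC.le
  have hextra : 0 ≤ (σ - 1 / 4) * (1 / 2 * Real.log C) :=
    mul_nonneg (by linarith) (by linarith)
  -- the value at `1 / 4`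
  have hq : ∫ s in (0 : ℝ)..(1 / 4), um C s = Hf C (1 / 4) := by
    apply intervalIntegral.integral_congr
    intro s hs
    rw [uIcc_of_le (by norm_num)] at hs
    have : 0 ≤ Real.cos (2 * π * s) := by
      apply Real.cos_nonneg_of_neg_pi_div_two_le_of_le
      · have : 0 ≤ 2 * π * s := mul_nonneg (by positivity) hs.1
        linarith
      · have := mul_le_mul_of_nonneg_left hs.2 (show 0 ≤ 2 * π by positivity)
        linarith
    simp only [um, ps, max_eq_left this]
  rcases le_total δ (1 / 4) with hd | hd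
  · -- monotone part
    have e1 := Lc_sub δ (1 / 4)
    have e2 : (∫ s in (0 : ℝ)..(1 / 4), um C s) - ∫ s in (0 : ℝ)..δ, um C s =
        ∫ s in δ..(1 / 4), um C s :=
      intervalIntegral.integral_interval_sub_left (hc.intervalIntegrable _ _)
        (hc.intervalIntegrable _ _)
    have e3 : ∫ t in δ..(1 / 4), Real.log (2 * Real.sin (π * t)) ≤
        ∫ t in δ..(1 / 4), 1 / 2 * um C t := by
      apply intervalIntegral.integral_mono_on hd (ls_int _ _)
        ((hc.const_mul (1 / 2)).intervalIntegrable _ _)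
      intro t ht
      have hs := sin_nn (t := t) (by linarith [ht.1]) (by linarith [ht.2])
      have hm := le_max_right (Real.cos (2 * π * t)) 0
      have hm2 := le_max_left (Real.cos (2 * π * t)) 0
      have hnn : 0 ≤ um C t := Real.log_nonneg (by linarith)
      rcases eq_or_lt_of_le hs with h2 | h2
      · rw [← h2, mul_zero, Real.log_zero]
        linarith
      · have h3 : 2 * Real.log (2 * Real.sin (π * t)) = Real.log ((2 * Real.sin (π * t)) ^ 2) := by
          rw [Real.log_pow]; norm_num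
        have h4 : Real.log ((2 * Real.sin (π * t)) ^ 2) ≤ um C t := by
          unfold um
          apply Real.log_le_log (by positivity)
          have hcos : Real.cos (2 * π * t) = 1 - 2 * Real.sin (π * t) ^ 2 := by
            rw [show 2 * π * t = 2 * (π * t) by ring, Real.cos_two_mul, Real.cos_sq']
            ring
          have hcp : 0 ≤ Real.cos (2 * π * t) := by
            apply Real.cos_nonneg_of_neg_pi_div_two_le_of_le
            · have : 0 ≤ 2 * π * t := mul_nonneg (by positivity) (h0.trans ht.1)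
              linarith
            · have := mul_le_mul_of_nonneg_left ht.2 (show 0 ≤ 2 * π by positivity)
              linarith
          nlinarith
        linarith
    rw [intervalIntegral.integral_const_mul] at e3
    unfold mm
    rw [hq] at e2
    linarith
  · -- beyond `1 / 4`
    have e2 : (∫ s in (0 : ℝ)..δ, um C s) - ∫ s in (0 : ℝ)..(1 / 4), um C s =
        ∫ s in (1 / 4)..δ, um C s :=
      intervalIntegral.integral_interval_sub_left (hc.intervalIntegrable _ _)
        (hc.intervalIntegrable _ _)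
    have e3 : ∫ s in (1 / 4 : ℝ)..δ, um C s = (δ - 1 / 4) * Real.log (2 * C) := by
      have : ∫ s in (1 / 4 : ℝ)..δ, um C s = ∫ _s in (1 / 4 : ℝ)..δ, Real.log (2 * C) := by
        apply intervalIntegral.integral_congr
        intro s hs
        rw [uIcc_of_le hd] at hs
        have : Real.cos (2 * π * s) ≤ 0 := by
          apply Real.cos_nonpos_of_pi_div_two_le_of_le
          · have := mul_le_mul_of_nonneg_left hs.1 (show 0 ≤ 2 * π by positivity)
            linarith
          · have := mul_le_mul_of_nonneg_left (hs.2.trans h1) (show 0 ≤ 2 * π by positivity)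
            linarith
        simp only [um, max_eq_right this, mul_zero, add_zero]
      rw [this, intervalIntegral.integral_const, smul_eq_mul]
    have hl2 : Real.log (2 * C) = Real.log 2 + Real.log C :=
      Real.log_mul (by norm_num) (by linarith)
    -- monotonicity of the sine
    have hsmono : ∀ s t : ℝ, 0 ≤ s → s ≤ t → t ≤ 1 / 2 →
        Real.sin (π * s) ≤ Real.sin (π * t) := by
      intro s t hs hst ht
      apply Real.sin_le_sin_of_le_of_le_pi_div_two
      · have : 0 ≤ π * s := by positivity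
        linarith
      · nlinarith
      · nlinarith
    have hquart : Real.sin (π * (1 / 4)) = √2 / 2 := by
      rw [show π * (1 / 4) = π / 4 by ring, Real.sin_pi_div_four]
    have hsq2 : √2 * √2 = 2 := Real.mul_self_sqrt (by norm_num)
    have hlow : ∀ t ∈ Icc (1 / 4 : ℝ) (1 / 2),
        1 / 2 * Real.log 2 ≤ Real.log (2 * Real.sin (π * t)) := by
      intro t ht
      have h2 := hsmono (1 / 4) t (by norm_num) ht.1 ht.2
      rw [hquart] at h2
      have hpos : 0 < Real.sin (π * t) := lt_of_lt_of_le (by positivity) h2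
      have h3 : 2 * Real.log (2 * Real.sin (π * t)) = Real.log ((2 * Real.sin (π * t)) ^ 2) := by
        rw [Real.log_pow]; norm_num
      have h4 : Real.log 2 ≤ Real.log ((2 * Real.sin (π * t)) ^ 2) := by
        apply Real.log_le_log (by norm_num)
        have : 0 < √2 := by positivity
        nlinarith
      linarith
    have hhigh : ∀ t ∈ Icc σ (1 / 2 : ℝ),
        1 / 2 * Real.log (2 * C) ≤ Real.log (2 * Real.sin (π * t)) := by
      intro t ht
      have h2 := hsmono σ t (by linarith) ht.1 ht.2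
      have h20 := sin_nn (t := σ) (by linarith) (by linarith)
      have hpos : 0 < Real.sin (π * t) := by
        have := hsmono (1 / 4) t (by norm_num) (by linarith [ht.1]) ht.2
        rw [hquart] at this
        exact lt_of_lt_of_le (by positivity) this
      have h3 : 2 * Real.log (2 * Real.sin (π * t)) = Real.log ((2 * Real.sin (π * t)) ^ 2) := by
        rw [Real.log_pow]; norm_num
      have h4 : Real.log (2 * C) ≤ Real.log ((2 * Real.sin (π * t)) ^ 2) := by
        apply Real.log_le_log (by linarith)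
        nlinarith
      linarith
    unfold mm
    rcases le_total δ σ with hs | hs
    · have f1 := Lc_ge_of (a := 1 / 4) (b := δ) (M := 1 / 2 * Real.log 2) hd
        (fun t ht => hlow t ⟨ht.1, ht.2.trans h1⟩)
      have f2 : (δ - 1 / 4) * (1 / 2 * Real.log C) ≤ (σ - 1 / 4) * (1 / 2 * Real.log C) :=
        mul_le_mul_of_nonneg_right (by linarith) (by linarith)
      rw [hq] at e2
      rw [e3, hl2] at e2
      have : ∫ s in (0 : ℝ)..δ, um C s = Hf C (1 / 4) + (δ - 1 / 4) * (Real.log 2 + Real.log C) := by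
        linarith
      rw [this]
      linarith
    · have f1 := Lc_ge_of (a := 1 / 4) (b := σ) (M := 1 / 2 * Real.log 2) hσ
        (fun t ht => hlow t ⟨ht.1, ht.2.trans hσ1⟩)
      have f2 := Lc_ge_of (a := σ) (b := δ) (M := 1 / 2 * Real.log (2 * C)) hs
        (fun t ht => hhigh t ⟨ht.1, ht.2.trans h1⟩)
      rw [hq] at e2
      rw [e3] at e2
      have : ∫ s in (0 : ℝ)..δ, um C s = Hf C (1 / 4) + (δ - 1 / 4) * Real.log (2 * C) := by
        linarith
      rw [this]
      rw [hl2] at f2 ⊢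
      linarith

/-! ### The symmetric pairs -/

lemma ee_diff {C : ℝ} (hC : 1 < C) {a b : ℝ} (h0 : 0 ≤ a) (h1 : b ≤ 1) :
    DifferentiableOn ℝ (ee C) (interior (Icc a b)) := by
  intro t ht
  rw [interior_Icc] at ht
  exact (ee_deriv hC (lt_of_le_of_lt h0 ht.1) (lt_of_lt_of_le ht.2 h1)).differentiableAt
    |>.differentiableWithinAt

lemma ee_lip {C a b κ : ℝ} (hC : 1 < C) (h0 : 0 ≤ a) (hab : a ≤ b) (h1 : b ≤ 1)
    (h : ∀ t ∈ Ioo a b, deriv (ee C) t ≤ κ) : ee C b - ee C a ≤ κ * (b - a) := by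
  apply Convex.image_sub_le_mul_sub_of_deriv_le (convex_Icc a b) (ee_cont hC).continuousOn
    (ee_diff hC h0 h1) ?_ a (left_mem_Icc.2 hab) b (right_mem_Icc.2 hab) hab
  intro t ht
  rw [interior_Icc] at ht
  exact h t ht

lemma ee_lip' {C a b κ : ℝ} (hC : 1 < C) (h0 : 0 ≤ a) (hab : a ≤ b) (h1 : b ≤ 1)
    (h : ∀ t ∈ Ioo a b, κ ≤ deriv (ee C) t) : κ * (b - a) ≤ ee C b - ee C a := by
  apply Convex.mul_sub_le_image_sub_of_le_deriv (convex_Icc a b) (ee_cont hC).continuousOn
    (ee_diff hC h0 h1) ?_ a (left_mem_Icc.2 hab) b (right_mem_Icc.2 hab) hab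
  intro t ht
  rw [interior_Icc] at ht
  exact h t ht

lemma ee_mono_of {C a b : ℝ} (hC : 1 < C) (h0 : 0 ≤ a) (hab : a ≤ b) (h1 : b ≤ 1)
    (h : ∀ t ∈ Ioo a b, 0 < 2 * Real.cos (π * t) ^ 2 + Real.cos (π * t) + C - 2) :
    ee C a ≤ ee C b := by
  have := ee_lip' (κ := 0) hC h0 hab h1 (fun t ht => (der_pos hC (lt_of_le_of_lt h0 ht.1)
    (lt_of_lt_of_le ht.2 h1) (h t ht)).le)
  linarith

lemma ee_anti_of {C a b : ℝ} (hC : 1 < C) (h0 : 0 ≤ a) (hab : a ≤ b) (h1 : b ≤ 1)
    (h : ∀ t ∈ Ioo a b, 2 * Real.cos (π * t) ^ 2 + Real.cos (π * t) + C - 2 < 0) :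
    ee C b ≤ ee C a := by
  have := ee_lip (κ := 0) hC h0 hab h1 (fun t ht => (der_neg hC (lt_of_le_of_lt h0 ht.1)
    (lt_of_lt_of_le ht.2 h1) (h t ht)).le)
  linarith

lemma cos_lt {s t : ℝ} (h0 : 0 ≤ s) (h1 : s < t) (h2 : t ≤ 1) :
    Real.cos (π * t) < Real.cos (π * s) := by
  have hpi := Real.pi_pos
  exact Real.cos_lt_cos_of_nonneg_of_le_pi (by positivity) (by nlinarith) (by nlinarith)

lemma cos_half : Real.cos (π * (1 / 2)) = 0 := by
  rw [show π * (1 / 2) = π / 2 by ring, Real.cos_pi_div_two]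

/-- `ee C` is quasi-convex on `[1 / 2, 1]` -/
lemma ee_quasi {C p δ q : ℝ} (hC : 1 < C) (hC2 : C < 2) (hp : 1 / 2 ≤ p) (h1 : p ≤ δ)
    (h2 : δ ≤ q) (hq : q ≤ 1) : ee C δ ≤ max (ee C p) (ee C q) := by
  have hcd : Real.cos (π * δ) ≤ 0 := by
    rcases eq_or_lt_of_le (hp.trans h1) with h | h
    · rw [← h, cos_half]
    · have := cos_lt (by norm_num) h (h2.trans hq)
      rw [cos_half] at this
      exact this.le
  rcases le_or_gt (2 * Real.cos (π * δ) ^ 2 + Real.cos (π * δ) + C - 2) 0 with h | h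
  · refine le_max_of_le_left (ee_anti_of hC (by linarith) h1 (h2.trans hq) fun t ht => ?_)
    have c1 := cos_lt (by linarith [ht.1]) ht.2 (h2.trans hq)
    have c2 : Real.cos (π * t) ≤ 0 := by
      have := cos_lt (s := 1 / 2) (by norm_num) (lt_of_le_of_lt hp ht.1)
        (ht.2.le.trans (h2.trans hq))
      rw [cos_half] at this
      exact this.le
    rcases le_or_gt 0 (2 * Real.cos (π * t) + 1) with h3 | h3
    · nlinarith
    · nlinarith
  · refine le_max_of_le_right (ee_mono_of hC (by linarith) h2 hq fun t ht => ?_)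
    have c1 := cos_lt (by linarith) ht.1 (ht.2.le.trans hq)
    have h3 : 2 * Real.cos (π * δ) + 1 < 0 := by
      by_contra hcon
      push Not at hcon
      nlinarith
    nlinarith

/-- symmetrization near `1 / 2` -/
lemma Hf_sym (hJ : S_JEN) {y b : ℝ} (hy : 0 < y) (hb : 0 < b) (hb1 : b < 1 / 2) :
    Hf (Real.cosh y) (1 / 2 - b) ≤
      y / 2 - b * Real.log (2 * Real.sinh y * Real.sin (π * b)) := by
  set C := Real.cosh y with hCdef
  have hC : 1 < C := Real.one_lt_cosh.2 hy.ne'
  have hpi := Real.pi_pos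
  have hsb : 0 < Real.sin (π * b) :=
    Real.sin_pos_of_pos_of_lt_pi (by positivity) (by nlinarith)
  have hsh : 0 < Real.sinh y := Real.sinh_pos_iff.2 hy
  have h := Pool.Agent.Y51.TK.sym_low (φ := ps C) (a := 1 / 2 - b) (b := 1 / 2)
    (m := 2 * Real.log (2 * Real.sinh y * Real.sin (π * b))) (by linarith)
    ((ps_cont hC).intervalIntegrable _ _) ?_
  · rw [← Hf_sub hC, Hf_half hJ hy] at h
    linarith
  · intro t _
    have p1 := ps_pos_arg hC t
    have p2 := ps_pos_arg hC (1 / 2 - b + 1 / 2 - t)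
    have e0 : 2 * Real.log (2 * Real.sinh y * Real.sin (π * b)) =
        Real.log ((2 * Real.sinh y * Real.sin (π * b)) ^ 2) := by
      rw [Real.log_pow]; norm_num
    unfold ps
    rw [e0, ← Real.log_mul p1.ne' p2.ne']
    apply Real.log_le_log (by positivity)
    have e1 := Real.cos_add_cos (2 * π * t) (2 * π * (1 / 2 - b + 1 / 2 - t))
    have e2 := Real.two_mul_cos_mul_cos (2 * π * t) (2 * π * (1 / 2 - b + 1 / 2 - t))
    have e3 : (2 * π * t + 2 * π * (1 / 2 - b + 1 / 2 - t)) / 2 = π - π * b := by ring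
    have e4 : 2 * π * t + 2 * π * (1 / 2 - b + 1 / 2 - t) = 2 * π - 2 * (π * b) := by ring
    have e5 : 2 * π * t - 2 * π * (1 / 2 - b + 1 / 2 - t) =
        2 * ((2 * π * t - 2 * π * (1 / 2 - b + 1 / 2 - t)) / 2) := by ring
    set κ := Real.cos ((2 * π * t - 2 * π * (1 / 2 - b + 1 / 2 - t)) / 2) with hκ
    rw [e3, Real.cos_pi_sub] at e1
    rw [e4, Real.cos_two_pi_sub, e5, Real.cos_two_mul, Real.cos_two_mul, ← hκ] at e2
    have e6 := Real.cosh_sq y
    have e7 := Real.sin_sq_add_cos_sq (π * b)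
    have e8 : (2 * C + 2 * Real.cos (2 * π * t)) *
        (2 * C + 2 * Real.cos (2 * π * (1 / 2 - b + 1 / 2 - t))) =
        4 * (κ - C * Real.cos (π * b)) ^ 2 + (2 * Real.sinh y * Real.sin (π * b)) ^ 2 := by
      have e9 : Real.sin (π * b) ^ 2 = 1 - Real.cos (π * b) ^ 2 := by linarith
      have e10 : Real.sinh y ^ 2 = C ^ 2 - 1 := by linarith
      have e11 : (2 * Real.sinh y * Real.sin (π * b)) ^ 2 =
          4 * (C ^ 2 - 1) * (1 - Real.cos (π * b) ^ 2) := by
        rw [mul_pow, mul_pow, e9, e10]; ring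
      rw [e11]
      linear_combination 4 * C * e1 + 2 * e2
    rw [e8]
    nlinarith [sq_nonneg (κ - C * Real.cos (π * b))]

end Pool.Agent.Y108.TK
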