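import Pool.Agent.Y108.TK.Num

/-!
# Turk's head knots: bounds of the edges for the lines `y = log (3 / 2)` and `y = log 2`
-/

set_option autoImplicit false

namespace Pool.Agent.Y108.TK

open Set Filter Topology MeasureTheory intervalIntegral
open scoped Real Interval
open Pool.Agent.Y472.K (Lc lf Ep ee S_JEN S_G1 S_G2 S_G5)
open Pool.Agent.Y813.TK (ps ps_cont ps_pos_arg ps_anti Lc_cont
  Lc_deriv Lc_one ee_cont ee_deriv ee_one der_pos der_neg ls_int g2)
open Pool.Agent.Y988.TK (Lc_sub Lc_half Lc_refl)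

/-! ### The lines -/

/-- the first line -/
noncomputable def Y1 : ℝ := Real.log (3 / 2)

/-- the second line -/
noncomputable def Y2 : ℝ := Real.log 2

lemma Y1_pos : 0 < Y1 := Real.log_pos (by norm_num)
lemma Y2_pos : 0 < Y2 := Real.log_pos (by norm_num)

lemma cosh1 : Real.cosh Y1 = 13 / 12 := by
  unfold Y1; rw [Real.cosh_log (by norm_num)]; norm_num

lemma sinh1 : Real.sinh Y1 = 5 / 12 := by
  unfold Y1; rw [Real.sinh_log (by norm_num)]; norm_num

lemma cosh2 : Real.cosh Y2 = 5 / 4 := by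
  unfold Y2; rw [Real.cosh_log (by norm_num)]; norm_num

lemma sinh2 : Real.sinh Y2 = 3 / 4 := by
  unfold Y2; rw [Real.sinh_log (by norm_num)]; norm_num

lemma Y1_lt : Y1 ≤ 0.40547 := log_le' 8 (by norm_num) (by norm_num)
  (by norm_num [Finset.sum_range_succ, Nat.factorial])

lemma Y1_gt : 0.40546 ≤ Y1 := le_log' 8 (by norm_num) (by norm_num) (by norm_num) (by norm_num)
  (by norm_num [Finset.sum_range_succ, Nat.factorial])

lemma Y2_lt : Y2 < 0.6931472 := by
  have := Real.log_two_lt_d9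
  unfold Y2; linarith

lemma Y2_gt : 0.693147 < Y2 := by
  have := Real.log_two_gt_d9
  unfold Y2; linarith

/-! ### The symmetric pairs -/

lemma cos_p {t : ℝ} (h0 : 0 ≤ t) (h1 : t ≤ 1 / 2) : 0 ≤ Real.cos (π * t) := by
  have hpi := Real.pi_pos
  apply Real.cos_nonneg_of_neg_pi_div_two_le_of_le
  · have : 0 ≤ π * t := by positivity
    linarith
  · have := mul_le_mul_of_nonneg_left h1 hpi.le
    linarith

lemma sin_pos'' {t : ℝ} (h0 : 0 < t) (h1 : t < 1) : 0 < Real.sin (π * t) :=
  Pool.Agent.Y51.TK.sin_pos' h0 h1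

/-- `log x ≤ x - 1` for the derivative -/
lemma der_up {u s κ : ℝ} (hs : 0 < s) (hu : 0 < u) (h : u ≤ (1 + 2 * κ) * (4 * s ^ 2)) :
    -Real.log (2 * s) + 1 / 2 * Real.log u ≤ κ := by
  have h1 : 2 * Real.log (2 * s) = Real.log ((2 * s) ^ 2) := by
    rw [Real.log_pow]; norm_num
  have h2 := Real.log_le_sub_one_of_pos (show 0 < u / (2 * s) ^ 2 by positivity)
  rw [Real.log_div hu.ne' (by positivity)] at h2
  have h3 : u / (2 * s) ^ 2 ≤ 1 + 2 * κ := by
    rw [div_le_iff₀ (by positivity)]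
    linarith
  linarith

lemma der_down {u s κ : ℝ} (hs : 0 < s) (hu : 0 < u) (h : 4 * s ^ 2 ≤ (1 + 2 * κ) * u) :
    -κ ≤ -Real.log (2 * s) + 1 / 2 * Real.log u := by
  have h1 : 2 * Real.log (2 * s) = Real.log ((2 * s) ^ 2) := by
    rw [Real.log_pow]; norm_num
  have h2 := Real.log_le_sub_one_of_pos (show 0 < (2 * s) ^ 2 / u by positivity)
  rw [Real.log_div (by positivity) hu.ne'] at h2
  have h3 : (2 * s) ^ 2 / u ≤ 1 + 2 * κ := by
    rw [div_le_iff₀ hu]
    linarith
  linarith

lemma cos_third : Real.cos (π * (1 / 3)) = 1 / 2 := by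
  rw [show π * (1 / 3) = π / 3 by ring, Real.cos_pi_div_three]

/-- the first line, all the differences up to `1 / 2` -/
lemma ee1_half {δ : ℝ} (h0 : 0 ≤ δ) (h1 : δ ≤ 1 / 2) : ee (13 / 12) δ ≤ 0.3315 := by
  have hC : (1 : ℝ) < 13 / 12 := by norm_num
  have hpi := Real.pi_pos
  have hv : ee (13 / 12) (1 / 3) ≤ 0.33092 := by
    rw [ee_eq, show (1 : ℝ) / 3 / 2 = 1 / 6 by norm_num]
    have := Lc_third
    have := H1_sixth
    norm_num at *
    linarith
  have hlip : ∀ t : ℝ, 1 / 3 ≤ t → t ≤ 0.35 → ee (13 / 12) t ≤ 0.3315 := by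
    intro t ht ht2
    have h := ee_lip (C := 13 / 12) (a := 1 / 3) (b := t) (κ := 1 / 36) hC (by norm_num) ht
      (by linarith) ?_
    · norm_num at ht ht2 h hv ⊢
      linarith
    · intro s hs
      rw [(ee_deriv hC (by linarith [hs.1]) (by linarith [hs.2])).deriv]
      have hsp := sin_pos'' (t := s) (by linarith [hs.1]) (by linarith [hs.2])
      have hc := cos_lt (s := 1 / 3) (t := s) (by norm_num) hs.1 (by linarith [hs.2])
      rw [cos_third] at hc
      have hcp := cos_p (t := s) (by linarith [hs.1]) (by linarith [hs.2])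
      have hsc := Real.sin_sq_add_cos_sq (π * s)
      apply der_up hsp (by linarith)
      nlinarith
  rcases le_total δ (1 / 3) with h | h
  · refine (ee_mono_of hC h0 h (by norm_num) fun t ht => ?_).trans (by linarith)
    have hc := cos_lt (s := t) (t := 1 / 3) (by linarith [ht.1]) ht.2 (by norm_num)
    rw [cos_third] at hc
    nlinarith
  rcases le_total δ 0.35 with h' | h'
  · exact hlip δ h h'
  · refine (ee_anti_of hC (by norm_num) h' (by linarith) fun t ht => ?_).trans
      (hlip 0.35 (by norm_num) le_rfl)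
    have hc := cos_lt (s := 0.35) (t := t) (by norm_num) ht.1 (by linarith [ht.2])
    have hcp := cos_p (t := t) (by linarith [ht.1]) (by linarith [ht.2])
    have e1 : Real.cos (π * 0.35) = Real.sin (π * 0.15) := by
      rw [← Real.cos_pi_div_two_sub]; congr 1; ring
    have e2 : Real.sin (π * 0.15) ≤ π * 0.15 := (Real.sin_lt (by positivity)).le
    have e3 := Real.pi_lt_d4
    have e4 : Real.cos (π * t) < 0.47124 := by
      rw [e1] at hc
      norm_num at e3 hc e2 ⊢
      linarith
    nlinarith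

/-- the first line -/
lemma ee1 (hJ : S_JEN) {δ : ℝ} (h0 : 0 ≤ δ) (h1 : δ ≤ 1) : ee (13 / 12) δ ≤ 0.3315 := by
  rcases le_total δ (1 / 2) with h | h
  · exact ee1_half h0 h
  · refine (ee_quasi (p := 1 / 2) (q := 1) (by norm_num) (by norm_num) le_rfl h h1 le_rfl).trans
      (max_le (ee1_half (by norm_num) le_rfl) ?_)
    have := ee_one hJ Y1_pos
    rw [cosh1] at this
    rw [this]
    have := Y1_lt
    norm_num at this ⊢
    linarith

lemma cos_38 : Real.cos (π * (3 / 8)) = Real.sin (π / 8) := by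
  rw [← Real.cos_pi_div_two_sub]; congr 1; ring

/-- the second line, all the differences up to `1 / 2` -/
lemma ee2_half {δ : ℝ} (h0 : 0 ≤ δ) (h1 : δ ≤ 1 / 2) : ee (5 / 4) δ ≤ 0.3466 := by
  have hC : (1 : ℝ) < 5 / 4 := by norm_num
  have hpi := Real.pi_pos
  have hv : ee (5 / 4) (3 / 8) ≤ 0.34593 := by
    rw [ee_eq, show (3 : ℝ) / 8 / 2 = 3 / 16 by norm_num]
    have := Lc_38
    have := H2_316
    norm_num at *
    linarith
  have hc8 := s8
  have hlip : ∀ t : ℝ, 0.36 ≤ t → t ≤ 3 / 8 → ee (5 / 4) t ≤ 0.3466 := by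
    intro t ht ht2
    have h := ee_lip' (C := 5 / 4) (a := t) (b := 3 / 8) (κ := -0.0229) hC
      (by norm_num at ht ⊢; linarith) ht2 (by norm_num) ?_
    · norm_num at ht ht2 h hv ⊢
      linarith
    · intro s hs
      have hs1 : 0.36 < s := lt_of_le_of_lt ht hs.1
      norm_num at hs1
      rw [(ee_deriv hC (by linarith) (by linarith [hs.2])).deriv]
      have hsp := sin_pos'' (t := s) (by linarith) (by linarith [hs.2])
      have hc := cos_lt (s := s) (t := 3 / 8) (by linarith) hs.2 (by norm_num)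
      rw [cos_38] at hc
      have hcp := cos_p (t := s) (by linarith) (by linarith [hs.2])
      have hsc := Real.sin_sq_add_cos_sq (π * s)
      have hc9 : 0.38267 < Real.cos (π * s) := hc8.1.trans hc
      apply der_down hsp (by linarith)
      norm_num at hc9 ⊢
      nlinarith
  rcases le_total δ (3 / 8) with h | h
  · rcases le_total δ 0.36 with h' | h'
    · refine (ee_mono_of hC h0 h' (by norm_num) fun t ht => ?_).trans
        (hlip 0.36 le_rfl (by norm_num))
      have hc := cos_lt (s := t) (t := 0.36) (by linarith [ht.1]) ht.2 (by norm_num)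
      have e1 : Real.cos (π * 0.36) = Real.sin (π * 0.14) := by
        rw [← Real.cos_pi_div_two_sub]; congr 1; ring
      have e2 := Real.sin_gt_sub_cube (show 0 < π * 0.14 by positivity)
      have e3 := Real.pi_lt_d4
      have e4 := Real.pi_gt_d4
      have e5 : 0.42 < Real.cos (π * 0.36) := by
        rw [e1]
        have h5 : π * 0.14 < 0.44 := by norm_num at e3 ⊢; linarith
        have h6 : 0.439 < π * 0.14 := by norm_num at e4 ⊢; linarith
        have h7 : (π * 0.14) ^ 3 < 0.44 ^ 3 := by gcongr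
        norm_num at h5 h6 h7 e2 ⊢
        linarith
      have e6 : 0.42 < Real.cos (π * t) := e5.trans hc
      norm_num at e6
      nlinarith
    · exact hlip δ h' h
  · refine (ee_anti_of hC (by norm_num) h (by linarith) fun t ht => ?_).trans
      (hv.trans (by norm_num))
    have hc := cos_lt (s := 3 / 8) (t := t) (by norm_num) ht.1 (by linarith [ht.2])
    rw [cos_38] at hc
    have hcp := cos_p (t := t) (by linarith [ht.1]) (by linarith [ht.2])
    have e4 : Real.cos (π * t) < 0.38270 := hc.trans hc8.2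
    norm_num at e4
    nlinarith

/-- the second line -/
lemma ee2 (hJ : S_JEN) {δ : ℝ} (h0 : 0 ≤ δ) (h1 : δ ≤ 1) : ee (5 / 4) δ ≤ 0.3466 := by
  rcases le_total δ (1 / 2) with h | h
  · exact ee2_half h0 h
  · refine (ee_quasi (p := 1 / 2) (q := 1) (by norm_num) (by norm_num) le_rfl h h1 le_rfl).trans
      (max_le (ee2_half (by norm_num) le_rfl) ?_)
    have := ee_one hJ Y2_pos
    rw [cosh2] at this
    rw [this]
    have := Y2_lt
    norm_num at this ⊢
    linarith

/-! ### The one-sided pairs -/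

lemma mm1 {δ : ℝ} (h0 : 0 ≤ δ) (h1 : δ ≤ 1 / 2) : mm (13 / 12) δ ≤ 0.2998 := by
  have hpi := Real.pi_gt_d4
  have hpi2 := Real.pi_lt_d4
  have h := mm_le (C := 13 / 12) (σ := 0.2635) (by norm_num) (by norm_num) (by norm_num) ?_ h0 h1
  · have e1 : Real.log (13 / 12) ≤ 13 / 12 - 1 := Real.log_le_sub_one_of_pos (by norm_num)
    have e2 := Lc_14
    have e3 := H1_quart
    norm_num at h e1 e2 e3 ⊢
    linarith
  · have e1 : Real.cos (2 * (π * 0.2635)) = 2 * Real.cos (π * 0.2635) ^ 2 - 1 :=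
      Real.cos_two_mul _
    have e2 : Real.cos (2 * (π * 0.2635)) = -Real.sin (π * 0.027) := by
      rw [← Real.cos_add_pi_div_two]; congr 1; ring
    have e3 := Real.sin_gt_sub_cube (show 0 < π * 0.027 by positivity)
    have h5 : π * 0.027 < 0.085 := by norm_num at hpi2 ⊢; linarith
    have h6 : 0.0848 < π * 0.027 := by norm_num at hpi ⊢; linarith
    have h7 : (π * 0.027) ^ 3 < 0.085 ^ 3 := by gcongr
    norm_num at h5 h6 h7 e3 e1 e2 ⊢
    have e4 := Real.sin_sq_add_cos_sq (π * (527 / 2000))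
    linarith

lemma mm2 {δ : ℝ} (h0 : 0 ≤ δ) (h1 : δ ≤ 1 / 2) : mm (5 / 4) δ ≤ 0.3152 := by
  have hpi := Real.pi_gt_d4
  have hpi2 := Real.pi_lt_d4
  have h := mm_le (C := 5 / 4) (σ := 0.2905) (by norm_num) (by norm_num) (by norm_num) ?_ h0 h1
  · have e1 : Real.log (5 / 4) ≤ 0.2232 := log_le' 6 (by norm_num) (by norm_num)
      (by norm_num [Finset.sum_range_succ, Nat.factorial])
    have e2 := Lc_14
    have e3 := H2_quart
    norm_num at h e1 e2 e3 ⊢
    linarith
  · have e1 : Real.cos (2 * (π * 0.2905)) = 2 * Real.cos (π * 0.2905) ^ 2 - 1 :=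
      Real.cos_two_mul _
    have e2 : Real.cos (2 * (π * 0.2905)) = -Real.sin (π * 0.081) := by
      rw [← Real.cos_add_pi_div_two]; congr 1; ring
    have e3 := Real.sin_gt_sub_cube (show 0 < π * 0.081 by positivity)
    have h5 : π * 0.081 < 0.2545 := by norm_num at hpi2 ⊢; linarith
    have h6 : 0.25445 < π * 0.081 := by norm_num at hpi ⊢; linarith
    have h7 : (π * 0.081) ^ 3 < 0.2545 ^ 3 := by gcongr
    norm_num at h5 h6 h7 e3 e1 e2 ⊢
    have e4 := Real.sin_sq_add_cos_sq (π * (581 / 2000))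
    linarith

end Pool.Agent.Y108.TK
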